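import Mathlib

/-! Small local spectra and hyperinvariant subspaces: the core argument. -/

set_option autoImplicit false

open Filter Topology Bornology

namespace Pool.Agent.Q142.HS

variable {X : Type*} [NormedAddCommGroup X] [NormedSpace ℂ X]

/-- for every `ε` there is a nonzero vector with `‖(T - c)^n x‖ ≤ C ε ^ n` -/
def SV (T : X →L[ℂ] X) (c : ℂ) : Prop :=
  ∀ ε : ℝ, 0 < ε → ∃ (x : X) (C : ℝ), x ≠ 0 ∧
    ∀ n : ℕ, ‖((T - c • (1 : X →L[ℂ] X)) ^ n) x‖ ≤ C * ε ^ n

/-- for every `ε` there is a nonzero functional with `‖φ (T - c)^n‖ ≤ C ε ^ n` -/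
def SF (T : X →L[ℂ] X) (c : ℂ) : Prop :=
  ∀ ε : ℝ, 0 < ε → ∃ (φ : X →L[ℂ] ℂ) (C : ℝ), φ ≠ 0 ∧
    ∀ n : ℕ, ‖φ.comp ((T - c • (1 : X →L[ℂ] X)) ^ n)‖ ≤ C * ε ^ n

/-- `T` has a closed subspace, neither `{0}` nor the whole space, which is invariant under every
bounded operator commuting with `T`. -/
def HasHyperinvariant (T : X →L[ℂ] X) : Prop :=
  ∃ V : Submodule ℂ X, IsClosed (V : Set X) ∧ V ≠ ⊥ ∧ V ≠ ⊤ ∧
    ∀ Q : X →L[ℂ] X, Q * T = T * Q → ∀ x ∈ V, Q x ∈ V

theorem hyper_of_pair (T : X →L[ℂ] X) (x : X) (φ : X →L[ℂ] ℂ) (hx : x ≠ 0) (hφ : φ ≠ 0)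
    (h : ∀ A : X →L[ℂ] X, A * T = T * A → φ (A x) = 0) : HasHyperinvariant T := by
  let W : Submodule ℂ X :=
    { carrier := {y | ∃ A : X →L[ℂ] X, A * T = T * A ∧ A x = y}
      add_mem' := by
        rintro _ _ ⟨A, hA, rfl⟩ ⟨B, hB, rfl⟩
        exact ⟨A + B, by rw [add_mul, mul_add, hA, hB], by simp⟩
      zero_mem' := ⟨0, by simp, by simp⟩
      smul_mem' := by
        rintro c _ ⟨A, hA, rfl⟩
        exact ⟨c • A, by rw [smul_mul_assoc, mul_smul_comm, hA], by simp⟩ }
  refine ⟨W.topologicalClosure, W.isClosed_topologicalClosure, ?_, ?_, ?_⟩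
  · intro h0
    have h1 : x ∈ W.topologicalClosure :=
      W.le_topologicalClosure ⟨1, by simp, by simp⟩
    rw [h0] at h1
    exact hx (by simpa using h1)
  · intro h0
    apply hφ
    ext y
    have h1 : y ∈ W.topologicalClosure := by rw [h0]; trivial
    have h2 : W.topologicalClosure ≤ LinearMap.ker (φ : X →ₗ[ℂ] ℂ) := by
      apply W.topologicalClosure_minimal
      · rintro _ ⟨A, hA, rfl⟩
        simpa using h A hA
      · exact φ.isClosed_ker
    simpa using h2 h1
  · intro Q hQ y hy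
    have h1 : W.topologicalClosure ≤ W.topologicalClosure.comap (Q : X →ₗ[ℂ] X) := by
      apply W.topologicalClosure_minimal
      · rintro _ ⟨A, hA, rfl⟩
        refine W.le_topologicalClosure ⟨Q * A, ?_, by simp⟩
        rw [mul_assoc, hA, ← mul_assoc, hQ, mul_assoc]
      · exact W.isClosed_topologicalClosure.preimage Q.continuous
    exact h1 hy

section ring
variable {R : Type*} [Ring R]


/-- the telescoping identity -/
theorem tele (z b d w r : R) (hzr : (z - b) * r = 1) (hrz : r * (z - b) = 1)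
    (hwb : w * b = b * w) (hwd : w * d = d * w) (hwr : w * r = r * w) (hz : z * w = w * z) (n : ℕ) :
    (z - (b + d * w)) * (r * (d * r) ^ n * w ^ n) = (d * r) ^ n * w ^ n - (d * r) ^ (n + 1) * w ^ (n + 1) ∧
    (r * (d * r) ^ n * w ^ n) * (z - (b + d * w)) = (r * d) ^ n * w ^ n - (r * d) ^ (n + 1) * w ^ (n + 1) := by
  have cwdr : Commute w (d * r) := (show Commute w d from hwd).mul_right hwr
  have cwr : Commute w r := hwr
  have h1 : r * (d * r) ^ n = (r * d) ^ n * r := by
    induction n with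
    | zero => simp
    | succ n ih => rw [pow_succ, ← mul_assoc, ih, pow_succ]; simp only [mul_assoc]
  constructor
  · have : z - (b + d * w) = (z - b) - d * w := by abel
    rw [this, sub_mul]
    congr 1
    · rw [mul_assoc r, ← mul_assoc (z - b), hzr, one_mul]
    · have e1 : w * (r * (d * r) ^ n * w ^ n) = (r * (d * r) ^ n * w ^ n) * w :=
        ((cwr.mul_right (cwdr.pow_right n)).mul_right ((Commute.refl w).pow_right n)).eq
      rw [mul_assoc d, e1, pow_succ', pow_succ]
      simp only [mul_assoc]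
  · have : z - (b + d * w) = (z - b) - d * w := by abel
    rw [this, mul_sub]
    have cwz : Commute w (z - b) := (show Commute w z from hz.symm).sub_right hwb
    congr 1
    · rw [h1, mul_assoc ((r * d) ^ n * r), ((cwz.pow_left n)).eq]
      rw [← mul_assoc, mul_assoc ((r * d) ^ n), hrz, mul_one]
    · rw [h1, pow_succ (r * d), pow_succ w]
      have e2 : w ^ n * (d * w) = d * (w ^ n * w) := by
        rw [← mul_assoc, ((show Commute w d from hwd).pow_left n).eq, mul_assoc]
      rw [mul_assoc ((r * d) ^ n * r), e2]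
      simp only [mul_assoc]

end ring

end Pool.Agent.Q142.HS
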