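import Mathlib
import Pool.Agent.Q142.HS.Core

/-! Small local spectra and hyperinvariant subspaces: the Liouville argument. -/

set_option autoImplicit false

open Filter Topology Bornology

namespace Pool.Agent.Q142.HS

variable {X : Type*} [NormedAddCommGroup X] [NormedSpace ℂ X] [CompleteSpace X]

/-- the points where the resolvent of `B` has norm less than `ρ` -/
def Om (B : X →L[ℂ] X) (ρ : ℝ) : Set ℂ := {z | z ∈ resolventSet ℂ B ∧ ‖resolvent B z‖ < ρ}

omit [CompleteSpace X] in
theorem res_mul (B : X →L[ℂ] X) {z : ℂ} (hz : z ∈ resolventSet ℂ B) :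
    (z • (1 : X →L[ℂ] X) - B) * resolvent B z = 1 ∧
      resolvent B z * (z • (1 : X →L[ℂ] X) - B) = 1 := by
  have h : IsUnit (algebraMap ℂ (X →L[ℂ] X) z - B) := hz
  rw [← Algebra.algebraMap_eq_smul_one]
  unfold resolvent
  exact ⟨Ring.mul_inverse_cancel _ h, Ring.inverse_mul_cancel _ h⟩

theorem cont_res (B : X →L[ℂ] X) {z : ℂ} (hz : z ∈ resolventSet ℂ B) :
    ContinuousAt (resolvent B) z := (spectrum.hasDerivAt_resolvent_const_left hz).continuousAt

theorem isOpen_Om (B : X →L[ℂ] X) (ρ : ℝ) : IsOpen (Om B ρ) := by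
  rw [isOpen_iff_mem_nhds]
  rintro z ⟨hz, hz'⟩
  have h1 := (spectrum.isOpen_resolventSet B).mem_nhds hz
  have h2 : ∀ᶠ w in 𝓝 z, ‖resolvent B w‖ < ρ := (cont_res B hz).norm.eventually_lt_const hz'
  filter_upwards [h1, h2] with w hw hw'
  exact ⟨hw, hw'⟩

theorem far_Om (B : X →L[ℂ] X) {ρ : ℝ} (hρ : 0 < ρ) : ∀ᶠ z in cobounded ℂ, z ∈ Om B ρ := by
  have h1 : ∀ᶠ z in cobounded ℂ, z ∈ resolventSet ℂ B := by
    have h := (spectrum.isBounded (𝕜 := ℂ) B)
    have h2 : (spectrum ℂ B)ᶜ ∈ cobounded ℂ := Bornology.isBounded_def.1 h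
    filter_upwards [h2] with z hz
    simpa [spectrum] using! hz
  have h2 : ∀ᶠ z in cobounded ℂ, ‖resolvent B z‖ < ρ := by
    have h := (spectrum.resolvent_tendsto_cobounded (𝕜 := ℂ) B).norm
    rw [norm_zero] at h
    exact h.eventually_lt_const hρ
  filter_upwards [h1, h2] with z hz hz'
  exact ⟨hz, hz'⟩

theorem cover (B₁ B₂ : X →L[ℂ] X) (hdis : Disjoint (spectrum ℂ B₁) (spectrum ℂ B₂)) :
    ∃ ρ : ℝ, 0 < ρ ∧ ∀ z, z ∈ Om B₁ ρ ∨ z ∈ Om B₂ ρ := by
  have hev := far_Om B₁ one_pos
  obtain ⟨s, hs, hs'⟩ : ∃ s : Set ℂ, IsBounded s ∧ ∀ z ∉ s, z ∈ Om B₁ 1 := by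
    refine ⟨{x | x ∈ Om B₁ 1}ᶜ, ?_, fun z hz => by simpa using hz⟩
    rw [Bornology.isBounded_def, compl_compl]
    exact hev
  have hK : IsCompact (closure s) := hs.isCompact_closure
  let U : ℕ → Set ℂ := fun n => Om B₁ (n + 1) ∪ Om B₂ (n + 1)
  have hU : ∀ n, IsOpen (U n) := fun n => (isOpen_Om _ _).union (isOpen_Om _ _)
  have hmono : Monotone U := by
    intro m n hmn z hz
    have hmn' : (m : ℝ) + 1 ≤ n + 1 := by exact_mod_cast Nat.add_le_add_right hmn 1
    rcases hz with hz | hz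
    · exact Or.inl ⟨hz.1, hz.2.trans_le hmn'⟩
    · exact Or.inr ⟨hz.1, hz.2.trans_le hmn'⟩
  have hcov : closure s ⊆ ⋃ n, U n := by
    intro z _
    rw [Set.mem_iUnion]
    by_cases h : z ∈ spectrum ℂ B₁
    · have h2 : z ∉ spectrum ℂ B₂ := Set.disjoint_left.1 hdis h
      obtain ⟨n, hn⟩ := exists_nat_gt ‖resolvent B₂ z‖
      exact ⟨n, Or.inr ⟨by simpa [spectrum] using! h2, by linarith⟩⟩
    · obtain ⟨n, hn⟩ := exists_nat_gt ‖resolvent B₁ z‖
      exact ⟨n, Or.inl ⟨by simpa [spectrum] using! h, by linarith⟩⟩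
  obtain ⟨n, hn⟩ := hK.elim_directed_cover U hU hcov hmono.directed_le
  refine ⟨n + 1, by positivity, fun z => ?_⟩
  by_cases hz : z ∈ s
  · exact hn (subset_closure hz)
  · have := hs' z hz
    exact Or.inl ⟨this.1, this.2.trans_le (by linarith [n.cast_nonneg (α := ℝ)])⟩

/-- the local resolvent of a vector -/
theorem vec (G B D W : X →L[ℂ] X) (hG : G = B + D * W) (cb : Commute W B) (cd : Commute W D)
    (ρ ε C : ℝ) (hρ : 0 < ρ) (hε : 0 < ε) (h2 : ‖D‖ * ρ * ε ≤ 1 / 2) (x : X)
    (hx : ∀ n : ℕ, ‖(W ^ n) x‖ ≤ C * ε ^ n) :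
    ∃ y : ℂ → X, DifferentiableOn ℂ y (Om B ρ) ∧
      ∀ z ∈ Om B ρ, (z • (1 : X →L[ℂ] X) - G) (y z) = x ∧ ‖y z‖ ≤ 2 * C * ‖resolvent B z‖ := by
  let t : ℕ → ℂ → X := fun n z => (resolvent B z * (D * resolvent B z) ^ n) ((W ^ n) x)
  have hC : 0 ≤ C := by
    have := hx 0
    simp only [pow_zero, mul_one] at this
    exact (norm_nonneg _).trans this
  have hpow : ∀ (a : X →L[ℂ] X) (n : ℕ), ‖a ^ n‖ ≤ ‖a‖ ^ n ∨ n = 0 := by
    intro a n
    rcases Nat.eq_zero_or_pos n with h | h
    · exact Or.inr h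
    · exact Or.inl (norm_pow_le' a h)
  have hb : ∀ n, ∀ z ∈ Om B ρ, ‖t n z‖ ≤ C * ‖resolvent B z‖ * (1 / 2) ^ n := by
    intro n z hz
    have hr : ‖resolvent B z‖ ≤ ρ := hz.2.le
    have h1 : ‖resolvent B z * (D * resolvent B z) ^ n‖ ≤ ‖resolvent B z‖ * (‖D‖ * ρ) ^ n := by
      rcases Nat.eq_zero_or_pos n with h | h
      · subst h; simp
      · calc _ ≤ ‖resolvent B z‖ * ‖(D * resolvent B z) ^ n‖ := norm_mul_le _ _
          _ ≤ ‖resolvent B z‖ * ‖D * resolvent B z‖ ^ n := by
            gcongr; exact norm_pow_le' _ h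
          _ ≤ ‖resolvent B z‖ * (‖D‖ * ρ) ^ n := by
            gcongr
            exact (norm_mul_le _ _).trans (by gcongr)
    calc ‖t n z‖ ≤ ‖resolvent B z * (D * resolvent B z) ^ n‖ * ‖(W ^ n) x‖ :=
          ContinuousLinearMap.le_opNorm _ _
      _ ≤ (‖resolvent B z‖ * (‖D‖ * ρ) ^ n) * (C * ε ^ n) := by
          gcongr
          exact hx n
      _ = C * ‖resolvent B z‖ * (‖D‖ * ρ * ε) ^ n := by rw [mul_pow (‖D‖ * ρ)]; ring
      _ ≤ C * ‖resolvent B z‖ * (1 / 2) ^ n := by gcongr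
  have hsum : Summable fun n : ℕ => C * ρ * (1 / 2 : ℝ) ^ n :=
    (summable_geometric_two).mul_left _
  have hb' : ∀ n, ∀ z ∈ Om B ρ, ‖t n z‖ ≤ C * ρ * (1 / 2) ^ n := by
    intro n z hz
    refine (hb n z hz).trans ?_
    have := hz.2.le
    gcongr
  refine ⟨fun z => ∑' n, t n z, ?_, ?_⟩
  · refine Complex.differentiableOn_tsum_of_summable_norm hsum ?_ (isOpen_Om B ρ) hb'
    intro n z hz
    have hd : DifferentiableAt ℂ (resolvent B) z :=
      (spectrum.hasDerivAt_resolvent_const_left hz.1).differentiableAt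
    have hd2 : DifferentiableAt ℂ (fun z => resolvent B z * (D * resolvent B z) ^ n) z :=
      hd.mul (((differentiableAt_const D).mul hd).pow n)
    exact (hd2.clm_apply (differentiableAt_const _)).differentiableWithinAt
  · intro z hz
    have hs : Summable fun n => t n z :=
      Summable.of_norm_bounded hsum (fun n => hb' n z hz)
    obtain ⟨hzr, hrz⟩ := res_mul B hz.1
    have cz : Commute W (z • (1 : X →L[ℂ] X)) := (Commute.one_right W).smul_right z
    have cr : Commute W (resolvent B z) := by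
      have h : Commute W (z • (1 : X →L[ℂ] X) - B) := cz.sub_right cb
      have e : W * resolvent B z = resolvent B z * W := by
        calc W * resolvent B z
            = (resolvent B z * (z • (1 : X →L[ℂ] X) - B)) * W * resolvent B z := by
              rw [hrz, one_mul]
          _ = resolvent B z * (W * (z • (1 : X →L[ℂ] X) - B)) * resolvent B z := by
              rw [h.eq]; simp only [mul_assoc]
          _ = resolvent B z * W * ((z • (1 : X →L[ℂ] X) - B) * resolvent B z) := by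
              simp only [mul_assoc]
          _ = resolvent B z * W := by rw [hzr, mul_one]
      exact e
    constructor
    · have hp : ∀ N : ℕ, (z • (1 : X →L[ℂ] X) - G) (∑ n ∈ Finset.range N, t n z) =
          x - ((D * resolvent B z) ^ N) ((W ^ N) x) := by
        intro N
        induction N with
        | zero => simp
        | succ N ih =>
          rw [Finset.sum_range_succ, map_add, ih]
          have h := (tele (z • (1 : X →L[ℂ] X)) B D W (resolvent B z) hzr hrz cb.eq cd.eq cr.eq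
            cz.symm.eq N).1
          rw [← hG] at h
          have h3 := congrArg (fun a : X →L[ℂ] X => a x) h
          simp only [ContinuousLinearMap.mul_apply, ContinuousLinearMap.sub_apply] at h3
          have h4 : (z • (1 : X →L[ℂ] X) - G) (t N z) =
              ((D * resolvent B z) ^ N) ((W ^ N) x) -
                ((D * resolvent B z) ^ (N + 1)) ((W ^ (N + 1)) x) := by
            simpa [t] using h3
          rw [h4]
          abel
      have hl1 : Tendsto (fun N : ℕ => (z • (1 : X →L[ℂ] X) - G) (∑ n ∈ Finset.range N, t n z))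
          atTop (𝓝 ((z • (1 : X →L[ℂ] X) - G) (∑' n, t n z))) :=
        ((z • (1 : X →L[ℂ] X) - G).continuous.tendsto _).comp hs.hasSum.tendsto_sum_nat
      have hl2 : Tendsto (fun N : ℕ => x - ((D * resolvent B z) ^ N) ((W ^ N) x)) atTop
          (𝓝 (x - 0)) := by
        refine tendsto_const_nhds.sub ?_
        refine squeeze_zero_norm' (a := fun n : ℕ => C * (1 / 2 : ℝ) ^ n) ?_ ?_
        · filter_upwards [eventually_gt_atTop 0] with N hN
          have hr : ‖resolvent B z‖ ≤ ρ := hz.2.le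
          calc _ ≤ ‖(D * resolvent B z) ^ N‖ * ‖(W ^ N) x‖ := ContinuousLinearMap.le_opNorm _ _
            _ ≤ (‖D‖ * ρ) ^ N * (C * ε ^ N) := by
              have e1 : ‖(D * resolvent B z) ^ N‖ ≤ (‖D‖ * ρ) ^ N := by
                refine (norm_pow_le' _ hN).trans ?_
                gcongr
                exact (norm_mul_le _ _).trans (by gcongr)
              exact mul_le_mul e1 (hx N) (norm_nonneg _) (by positivity)
            _ = C * (‖D‖ * ρ * ε) ^ N := by rw [mul_pow (‖D‖ * ρ)]; ring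
            _ ≤ C * (1 / 2) ^ N := by gcongr
        · have := (tendsto_pow_atTop_nhds_zero_of_lt_one (by norm_num : (0:ℝ) ≤ 1 / 2)
            (by norm_num)).const_mul C
          simpa using this
      rw [sub_zero] at hl2
      refine tendsto_nhds_unique hl1 ?_
      simpa only [hp] using hl2
    · calc ‖∑' n, t n z‖ ≤ ∑' n : ℕ, C * ‖resolvent B z‖ * (1 / 2 : ℝ) ^ n := by
            refine tsum_of_norm_bounded (a := ∑' n : ℕ, C * ‖resolvent B z‖ * (1 / 2 : ℝ) ^ n) ?_
              (fun n => hb n z hz)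
            exact ((summable_geometric_two).mul_left _).hasSum
        _ = 2 * C * ‖resolvent B z‖ := by rw [tsum_mul_left, tsum_geometric_two]; ring

/-- the local resolvent of a functional -/
theorem fnl (G B D W : X →L[ℂ] X) (hG : G = B + D * W) (cb : Commute W B) (cd : Commute W D)
    (ρ ε C : ℝ) (hρ : 0 < ρ) (hε : 0 < ε) (h2 : ‖D‖ * ρ * ε ≤ 1 / 2) (φ : X →L[ℂ] ℂ)
    (hx : ∀ n : ℕ, ‖φ.comp (W ^ n)‖ ≤ C * ε ^ n) :
    ∃ y : ℂ → (X →L[ℂ] ℂ), DifferentiableOn ℂ y (Om B ρ) ∧
      ∀ z ∈ Om B ρ, (y z).comp (z • (1 : X →L[ℂ] X) - G) = φ := by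
  let t : ℕ → ℂ → (X →L[ℂ] ℂ) := fun n z =>
    (φ.comp (W ^ n)).comp (resolvent B z * (D * resolvent B z) ^ n)
  have hC : 0 ≤ C := by
    have := hx 0
    simp only [pow_zero, mul_one] at this
    exact (norm_nonneg _).trans this
  have hb' : ∀ n, ∀ z ∈ Om B ρ, ‖t n z‖ ≤ C * ρ * (1 / 2) ^ n := by
    intro n z hz
    have hr : ‖resolvent B z‖ ≤ ρ := hz.2.le
    have h1 : ‖resolvent B z * (D * resolvent B z) ^ n‖ ≤ ρ * (‖D‖ * ρ) ^ n := by
      rcases Nat.eq_zero_or_pos n with h | h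
      · subst h; simpa using hr
      · calc _ ≤ ‖resolvent B z‖ * ‖(D * resolvent B z) ^ n‖ := norm_mul_le _ _
          _ ≤ ρ * ‖D * resolvent B z‖ ^ n := by
            gcongr; exact norm_pow_le' _ h
          _ ≤ ρ * (‖D‖ * ρ) ^ n := by
            gcongr
            exact (norm_mul_le _ _).trans (by gcongr)
    calc ‖t n z‖ ≤ ‖φ.comp (W ^ n)‖ * ‖resolvent B z * (D * resolvent B z) ^ n‖ :=
          ContinuousLinearMap.opNorm_comp_le _ _
      _ ≤ (C * ε ^ n) * (ρ * (‖D‖ * ρ) ^ n) := by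
          gcongr
          exact hx n
      _ = C * ρ * (‖D‖ * ρ * ε) ^ n := by rw [mul_pow (‖D‖ * ρ)]; ring
      _ ≤ C * ρ * (1 / 2) ^ n := by gcongr
  have hsum : Summable fun n : ℕ => C * ρ * (1 / 2 : ℝ) ^ n :=
    (summable_geometric_two).mul_left _
  refine ⟨fun z => ∑' n, t n z, ?_, ?_⟩
  · refine Complex.differentiableOn_tsum_of_summable_norm hsum ?_ (isOpen_Om B ρ) hb'
    intro n z hz
    have hd : DifferentiableAt ℂ (resolvent B) z :=
      (spectrum.hasDerivAt_resolvent_const_left hz.1).differentiableAt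
    have hd2 : DifferentiableAt ℂ (fun z => resolvent B z * (D * resolvent B z) ^ n) z :=
      hd.mul (((differentiableAt_const D).mul hd).pow n)
    exact ((differentiableAt_const _).clm_comp hd2).differentiableWithinAt
  · intro z hz
    have hs : Summable fun n => t n z :=
      Summable.of_norm_bounded hsum (fun n => hb' n z hz)
    obtain ⟨hzr, hrz⟩ := res_mul B hz.1
    have cz : Commute W (z • (1 : X →L[ℂ] X)) := (Commute.one_right W).smul_right z
    have cr : Commute W (resolvent B z) := by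
      have h : Commute W (z • (1 : X →L[ℂ] X) - B) := cz.sub_right cb
      have e : W * resolvent B z = resolvent B z * W := by
        calc W * resolvent B z
            = (resolvent B z * (z • (1 : X →L[ℂ] X) - B)) * W * resolvent B z := by
              rw [hrz, one_mul]
          _ = resolvent B z * (W * (z • (1 : X →L[ℂ] X) - B)) * resolvent B z := by
              rw [h.eq]; simp only [mul_assoc]
          _ = resolvent B z * W * ((z • (1 : X →L[ℂ] X) - B) * resolvent B z) := by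
              simp only [mul_assoc]
          _ = resolvent B z * W := by rw [hzr, mul_one]
      exact e
    have key : ∀ n, t n z = φ.comp (resolvent B z * (D * resolvent B z) ^ n * W ^ n) := by
      intro n
      have h : Commute (W ^ n) (resolvent B z * (D * resolvent B z) ^ n) :=
        (cr.mul_right ((cd.mul_right cr).pow_right n)).pow_left n
      show (φ.comp (W ^ n)).comp (resolvent B z * (D * resolvent B z) ^ n) = _
      rw [ContinuousLinearMap.comp_assoc, ← h.eq]
      rfl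
    have hp : ∀ N : ℕ, (∑ n ∈ Finset.range N, t n z).comp (z • (1 : X →L[ℂ] X) - G) =
        φ - φ.comp ((resolvent B z * D) ^ N * W ^ N) := by
      intro N
      induction N with
      | zero =>
        ext v
        simp
      | succ N ih =>
        rw [Finset.sum_range_succ, ContinuousLinearMap.add_comp, ih]
        have h := (tele (z • (1 : X →L[ℂ] X)) B D W (resolvent B z) hzr hrz cb.eq cd.eq cr.eq
          cz.symm.eq N).2
        rw [← hG] at h
        have h4 : (t N z).comp (z • (1 : X →L[ℂ] X) - G) =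
            φ.comp ((resolvent B z * D) ^ N * W ^ N) -
              φ.comp ((resolvent B z * D) ^ (N + 1) * W ^ (N + 1)) := by
          rw [key N, ContinuousLinearMap.comp_assoc, ← ContinuousLinearMap.comp_sub, ← h]
          rfl
        rw [h4]
        abel
    have hl1 : Tendsto (fun N : ℕ => (∑ n ∈ Finset.range N, t n z).comp
        (z • (1 : X →L[ℂ] X) - G)) atTop
        (𝓝 ((∑' n, t n z).comp (z • (1 : X →L[ℂ] X) - G))) := by
      have hc : Continuous fun a : X →L[ℂ] ℂ => a.comp (z • (1 : X →L[ℂ] X) - G) :=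
        continuous_id.clm_comp continuous_const
      exact (hc.tendsto _).comp hs.hasSum.tendsto_sum_nat
    have hl2 : Tendsto (fun N : ℕ => φ - φ.comp ((resolvent B z * D) ^ N * W ^ N)) atTop
        (𝓝 (φ - 0)) := by
      refine tendsto_const_nhds.sub ?_
      refine squeeze_zero_norm' (a := fun n : ℕ => C * (1 / 2 : ℝ) ^ n) ?_ ?_
      · filter_upwards [eventually_gt_atTop 0] with N hN
        have hr : ‖resolvent B z‖ ≤ ρ := hz.2.le
        have h : Commute (W ^ N) ((resolvent B z * D) ^ N) :=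
          ((cr.mul_right cd).pow_right N).pow_left N
        rw [← h.eq]
        calc ‖φ.comp (W ^ N * (resolvent B z * D) ^ N)‖
            = ‖(φ.comp (W ^ N)).comp ((resolvent B z * D) ^ N)‖ := by
              rw [ContinuousLinearMap.comp_assoc]; rfl
          _ ≤ ‖φ.comp (W ^ N)‖ * ‖(resolvent B z * D) ^ N‖ :=
              ContinuousLinearMap.opNorm_comp_le _ _
          _ ≤ (C * ε ^ N) * (‖D‖ * ρ) ^ N := by
            have e1 : ‖(resolvent B z * D) ^ N‖ ≤ (‖D‖ * ρ) ^ N := by
              refine (norm_pow_le' _ hN).trans ?_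
              gcongr
              refine (norm_mul_le _ _).trans ?_
              rw [mul_comm]
              gcongr
            exact mul_le_mul (hx N) e1 (norm_nonneg _) (by positivity)
          _ = C * (‖D‖ * ρ * ε) ^ N := by rw [mul_pow (‖D‖ * ρ)]; ring
          _ ≤ C * (1 / 2) ^ N := by gcongr
      · have := (tendsto_pow_atTop_nhds_zero_of_lt_one (by norm_num : (0:ℝ) ≤ 1 / 2)
          (by norm_num)).const_mul C
        simpa using this
    rw [sub_zero] at hl2
    refine tendsto_nhds_unique hl1 ?_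
    simpa only [hp] using hl2

theorem core (G B₁ D₁ W₁ B₂ D₂ W₂ : X →L[ℂ] X)
    (hG₁ : G = B₁ + D₁ * W₁) (hG₂ : G = B₂ + D₂ * W₂)
    (cb₁ : Commute W₁ B₁) (cd₁ : Commute W₁ D₁) (cb₂ : Commute W₂ B₂) (cd₂ : Commute W₂ D₂)
    (hdis : Disjoint (spectrum ℂ B₁) (spectrum ℂ B₂)) :
    ∃ ε : ℝ, 0 < ε ∧ ∀ (x : X) (φ : X →L[ℂ] ℂ) (C C' : ℝ), (∀ n : ℕ, ‖(W₁ ^ n) x‖ ≤ C * ε ^ n) →
      (∀ n : ℕ, ‖φ.comp (W₂ ^ n)‖ ≤ C' * ε ^ n) →
      ∀ A : X →L[ℂ] X, A * G = G * A → φ (A x) = 0 := by
  obtain ⟨ρ, hρ, hcov⟩ := cover B₁ B₂ hdis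
  have hpos : 0 < 2 * (ρ * (‖D₁‖ + ‖D₂‖) + 1) := by positivity
  refine ⟨1 / (2 * (ρ * (‖D₁‖ + ‖D₂‖) + 1)), by positivity, ?_⟩
  set ε := 1 / (2 * (ρ * (‖D₁‖ + ‖D₂‖) + 1)) with hεdef
  have hε : 0 < ε := by positivity
  have he1 : ‖D₁‖ * ρ * ε ≤ 1 / 2 := by
    rw [hεdef, mul_one_div, div_le_div_iff₀ hpos two_pos]
    nlinarith [mul_nonneg hρ.le (norm_nonneg D₂)]
  have he2 : ‖D₂‖ * ρ * ε ≤ 1 / 2 := by
    rw [hεdef, mul_one_div, div_le_div_iff₀ hpos two_pos]
    nlinarith [mul_nonneg hρ.le (norm_nonneg D₁)]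
  intro x φ C C' hx hφ
  obtain ⟨y, hyd, hy⟩ := vec G B₁ D₁ W₁ hG₁ cb₁ cd₁ ρ ε C hρ hε he1 x hx
  obtain ⟨ψ, hψd, hψ⟩ := fnl G B₂ D₂ W₂ hG₂ cb₂ cd₂ ρ ε C' hρ hε he2 φ hφ
  -- the entire function
  have hzero : ∀ A : X →L[ℂ] X, A * G = G * A → ∀ z ∈ Om B₁ ρ, φ (A (y z)) = 0 := by
    intro A hA
    classical
    let H : ℂ → ℂ := fun z => if z ∈ Om B₁ ρ then φ (A (y z)) else ψ z (A x)
    have hcomm : ∀ z : ℂ, ∀ v, A ((z • (1 : X →L[ℂ] X) - G) v) =
        (z • (1 : X →L[ℂ] X) - G) (A v) := by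
      intro z v
      have h := congrArg (fun a : X →L[ℂ] X => a v) hA
      simp only [ContinuousLinearMap.mul_apply] at h
      simp [h]
    have hagree : ∀ z ∈ Om B₂ ρ, H z = ψ z (A x) := by
      intro z hz
      by_cases h1 : z ∈ Om B₁ ρ
      · simp only [H, if_pos h1]
        have e1 := congrArg (fun a : X →L[ℂ] ℂ => a (A (y z))) (hψ z hz)
        simp only [ContinuousLinearMap.comp_apply] at e1
        rw [← e1, ← hcomm, (hy z h1).1]
      · simp only [H, if_neg h1]
    have hd : Differentiable ℂ H := by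
      intro z
      rcases hcov z with h1 | h1
      · have hn : ∀ᶠ w in 𝓝 z, w ∈ Om B₁ ρ := (isOpen_Om B₁ ρ).mem_nhds h1
        have h3 : DifferentiableAt ℂ (fun w => φ (A (y w))) z := by
          have := (hyd z h1).differentiableAt ((isOpen_Om B₁ ρ).mem_nhds h1)
          exact φ.differentiableAt.comp z (A.differentiableAt.comp z this)
        refine h3.congr_of_eventuallyEq ?_
        filter_upwards [hn] with w hw
        simp only [H, if_pos hw]
      · have hn : ∀ᶠ w in 𝓝 z, w ∈ Om B₂ ρ := (isOpen_Om B₂ ρ).mem_nhds h1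
        have h3 : DifferentiableAt ℂ (fun w => ψ w (A x)) z := by
          have := (hψd z h1).differentiableAt ((isOpen_Om B₂ ρ).mem_nhds h1)
          exact this.clm_apply (differentiableAt_const _)
        refine h3.congr_of_eventuallyEq ?_
        filter_upwards [hn] with w hw
        exact hagree w hw
    have hlim : Tendsto H (cocompact ℂ) (𝓝 0) := by
      rw [← Metric.cobounded_eq_cocompact]
      have hres := (spectrum.resolvent_tendsto_cobounded (𝕜 := ℂ) B₁).norm
      rw [norm_zero] at hres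
      refine squeeze_zero_norm' (a := fun z => ‖φ‖ * ‖A‖ * (2 * C * ‖resolvent B₁ z‖)) ?_ ?_
      · filter_upwards [far_Om B₁ hρ] with z hz
        simp only [H, if_pos hz]
        calc ‖φ (A (y z))‖ ≤ ‖φ‖ * (‖A‖ * ‖y z‖) :=
              (φ.le_opNorm _).trans (by gcongr; exact A.le_opNorm _)
          _ ≤ ‖φ‖ * (‖A‖ * (2 * C * ‖resolvent B₁ z‖)) := by
              gcongr
              exact (hy z hz).2
          _ = _ := by ring
      · have := (hres.const_mul (2 * C)).const_mul (‖φ‖ * ‖A‖)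
        simpa using this
    intro z hz
    have h := hd.apply_eq_of_tendsto_cocompact z hlim
    simpa only [H, if_pos hz] using h
  intro A hA
  obtain ⟨z, hz⟩ := (far_Om B₁ hρ).exists
  have h1 := hzero A hA z hz
  have h2 := hzero (A * G) (by rw [mul_assoc, ← mul_assoc G, ← hA, mul_assoc]) z hz
  rw [← (hy z hz).1]
  simp only [ContinuousLinearMap.sub_apply, ContinuousLinearMap.smul_apply,
    ContinuousLinearMap.one_apply, map_sub, map_smul]
  rw [ContinuousLinearMap.mul_apply] at h2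
  rw [h1, h2]
  simp

end Pool.Agent.Q142.HS
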