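import Mathlib
import Pool.Agent.Q142.HS.Core2

/-! Representations of `B(H)` on Banach spaces carry small local spectra over; polynomials with
coefficients in the commutant. -/

set_option autoImplicit false

open Filter Topology Bornology InnerProductSpace
open scoped InnerProductSpace

namespace Pool.Agent.Q142.HS

section poly

variable {X : Type*} [NormedAddCommGroup X] [NormedSpace ℂ X] [CompleteSpace X]

/-- two points with small vectors and small functionals -/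
theorem hyper_of_SV_SF (G : X →L[ℂ] X) {c₁ c₂ : ℂ} (hc : c₁ ≠ c₂) (h1 : SV G c₁) (h2 : SF G c₂) :
    HasHyperinvariant G := by
  have hsp : ∀ c : ℂ, spectrum ℂ (c • (1 : X →L[ℂ] X)) ⊆ {c} := by
    intro c
    rcases subsingleton_or_nontrivial (X →L[ℂ] X) with h | h
    · intro z hz
      exact absurd (isUnit_of_subsingleton _) hz
    · rw [← Algebra.algebraMap_eq_smul_one, spectrum.scalar_eq]
  obtain ⟨ε, hε, h⟩ := core G (c₁ • (1 : X →L[ℂ] X)) 1 (G - c₁ • (1 : X →L[ℂ] X))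
    (c₂ • (1 : X →L[ℂ] X)) 1 (G - c₂ • (1 : X →L[ℂ] X)) (by rw [one_mul]; abel) (by rw [one_mul]; abel)
    ((Commute.one_right _).smul_right _) (Commute.one_right _)
    ((Commute.one_right _).smul_right _) (Commute.one_right _)
    ((Set.disjoint_singleton.2 hc).mono (hsp c₁) (hsp c₂))
  obtain ⟨x, C, hx, hx'⟩ := h1 ε hε
  obtain ⟨φ, C', hφ, hφ'⟩ := h2 ε hε
  exact hyper_of_pair G x φ hx hφ (h x φ C C' hx' hφ')

/-- polynomials in `S` with coefficients in the commutant of `S` -/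
theorem hyper_poly (S : X →L[ℂ] X) (A : ℕ → (X →L[ℂ] X)) (m : ℕ)
    (hA : ∀ k, k < m → A k * S = S * A k) (c₁ c₂ : ℂ) (h1 : SV S c₁) (h2 : SF S c₂)
    (hdis : Disjoint (spectrum ℂ (∑ k ∈ Finset.range m, c₁ ^ k • A k))
      (spectrum ℂ (∑ k ∈ Finset.range m, c₂ ^ k • A k))) :
    HasHyperinvariant (∑ k ∈ Finset.range m, A k * S ^ k) := by
  let D : ℂ → (X →L[ℂ] X) := fun c => ∑ k ∈ Finset.range m,
    A k * ∑ i ∈ Finset.range k, S ^ i * (c • (1 : X →L[ℂ] X)) ^ (k - 1 - i)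
  have hG : ∀ c : ℂ, (∑ k ∈ Finset.range m, A k * S ^ k) =
      (∑ k ∈ Finset.range m, c ^ k • A k) + D c * (S - c • (1 : X →L[ℂ] X)) := by
    intro c
    simp only [D]
    rw [Finset.sum_mul, ← Finset.sum_add_distrib]
    refine Finset.sum_congr rfl fun k _ => ?_
    have hc : Commute S (c • (1 : X →L[ℂ] X)) := (Commute.one_right S).smul_right c
    rw [mul_assoc, hc.geom_sum₂_mul, smul_pow, one_pow, mul_sub, mul_smul_comm, mul_one]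
    abel
  have hSW : ∀ c : ℂ, ∀ Q : X →L[ℂ] X, Commute S Q → Commute (S - c • (1 : X →L[ℂ] X)) Q := by
    intro c Q hQ
    exact hQ.sub_left ((Commute.one_left Q).smul_left c)
  have hcA : ∀ k ∈ Finset.range m, Commute S (A k) := fun k hk =>
    (hA k (Finset.mem_range.1 hk)).symm
  have hB : ∀ c d : ℂ, Commute (S - d • (1 : X →L[ℂ] X)) (∑ k ∈ Finset.range m, c ^ k • A k) := by
    intro c d
    refine hSW d _ (Commute.sum_right _ _ _ fun k hk => ?_)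
    exact (hcA k hk).smul_right _
  have hD : ∀ c d : ℂ, Commute (S - d • (1 : X →L[ℂ] X)) (D c) := by
    intro c d
    refine hSW d _ (Commute.sum_right _ _ _ fun k hk => ?_)
    refine (hcA k hk).mul_right (Commute.sum_right _ _ _ fun i _ => ?_)
    exact ((Commute.refl S).pow_right i).mul_right
      (((Commute.one_right S).smul_right c).pow_right _)
  obtain ⟨ε, hε, h⟩ := core (∑ k ∈ Finset.range m, A k * S ^ k)
    (∑ k ∈ Finset.range m, c₁ ^ k • A k) (D c₁) (S - c₁ • (1 : X →L[ℂ] X))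
    (∑ k ∈ Finset.range m, c₂ ^ k • A k) (D c₂) (S - c₂ • (1 : X →L[ℂ] X)) (hG c₁) (hG c₂)
    (hB c₁ c₁) (hD c₁ c₁) (hB c₂ c₂) (hD c₂ c₂) hdis
  obtain ⟨x, C, hx, hx'⟩ := h1 ε hε
  obtain ⟨φ, C', hφ, hφ'⟩ := h2 ε hε
  exact hyper_of_pair _ x φ hx hφ (h x φ C C' hx' hφ')

end poly

section rep

variable {H : Type*} [NormedAddCommGroup H] [InnerProductSpace ℂ H]
variable {X : Type*} [NormedAddCommGroup X] [NormedSpace ℂ X]

theorem rep_rankOne (π : (H →L[ℂ] H) →ₐ[ℂ] (X →L[ℂ] X))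
    (hπ : ∃ x y : H, π (rankOne ℂ x y) ≠ 0) {x y : H} (hx : x ≠ 0) (hy : y ≠ 0) :
    π (rankOne ℂ x y) ≠ 0 := by
  obtain ⟨x₀, y₀, h0⟩ := hπ
  intro h
  apply h0
  have hxx : (⟪x, x⟫_ℂ) ≠ 0 := by simpa using hx
  have hyy : (⟪y, y⟫_ℂ) ≠ 0 := by simpa using hy
  have e : rankOne ℂ x₀ y₀ = ((⟪x, x⟫_ℂ)⁻¹ * (⟪y, y⟫_ℂ)⁻¹) •
      (rankOne ℂ x₀ x * rankOne ℂ x y * rankOne ℂ y y₀ : H →L[ℂ] H) := by
    ext f
    simp only [rankOne_apply, ContinuousLinearMap.smul_apply, ContinuousLinearMap.mul_apply,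
      inner_smul_right, smul_smul]
    congr 1
    field_simp
  rw [e, map_smul, map_mul, map_mul, h]
  simp

variable [CompleteSpace H]

theorem SV_rep (T : H →L[ℂ] H) (c : ℂ) (h : SV T c) (π : (H →L[ℂ] H) →ₐ[ℂ] (X →L[ℂ] X))
    (hc : Continuous π) (hπ : ∃ x y : H, π (rankOne ℂ x y) ≠ 0) :
    ∀ ε : ℝ, 0 < ε → ∃ (P : H →L[ℂ] H) (C : ℝ), (∃ x y : H, x ≠ 0 ∧ y ≠ 0 ∧ P = rankOne ℂ x y) ∧
      ∀ n : ℕ, ‖(π T - c • (1 : X →L[ℂ] X)) ^ n * π P‖ ≤ C * ε ^ n := by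
  intro ε hε
  obtain ⟨x, C, hx, hx'⟩ := h ε hε
  let PI : (H →L[ℂ] H) →L[ℂ] (X →L[ℂ] X) := ⟨π.toLinearMap, hc⟩
  have hPI : ∀ a, PI a = π a := fun a => rfl
  refine ⟨rankOne ℂ x x, ‖PI‖ * (C * ‖x‖), ⟨x, x, hx, hx, rfl⟩, fun n => ?_⟩
  have e1 : (π T - c • (1 : X →L[ℂ] X)) ^ n * π (rankOne ℂ x x) =
      PI (rankOne ℂ (((T - c • (1 : H →L[ℂ] H)) ^ n) x) x) := by
    rw [hPI]
    have e2 : (rankOne ℂ (((T - c • (1 : H →L[ℂ] H)) ^ n) x) x : H →L[ℂ] H) =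
        (T - c • (1 : H →L[ℂ] H)) ^ n * rankOne ℂ x x := by
      ext f
      simp [rankOne_apply]
    rw [e2, map_mul, map_pow, map_sub, map_smul, map_one]
  rw [e1]
  calc _ ≤ ‖PI‖ * ‖(rankOne ℂ (((T - c • (1 : H →L[ℂ] H)) ^ n) x) x : H →L[ℂ] H)‖ :=
        PI.le_opNorm _
    _ = ‖PI‖ * (‖((T - c • (1 : H →L[ℂ] H)) ^ n) x‖ * ‖x‖) := by rw [norm_rankOne]
    _ ≤ ‖PI‖ * ((C * ε ^ n) * ‖x‖) := by gcongr; exact hx' n
    _ = _ := by ring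

theorem SF_rep (T : H →L[ℂ] H) (c : ℂ)
    (h : SV (ContinuousLinearMap.adjoint T) (starRingEnd ℂ c)) (π : (H →L[ℂ] H) →ₐ[ℂ] (X →L[ℂ] X))
    (hc : Continuous π) :
    ∀ ε : ℝ, 0 < ε → ∃ (P : H →L[ℂ] H) (C : ℝ), (∃ x y : H, x ≠ 0 ∧ y ≠ 0 ∧ P = rankOne ℂ x y) ∧
      ∀ n : ℕ, ‖π P * (π T - c • (1 : X →L[ℂ] X)) ^ n‖ ≤ C * ε ^ n := by
  intro ε hε
  obtain ⟨x, C, hx, hx'⟩ := h ε hε
  let PI : (H →L[ℂ] H) →L[ℂ] (X →L[ℂ] X) := ⟨π.toLinearMap, hc⟩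
  have hPI : ∀ a, PI a = π a := fun a => rfl
  refine ⟨rankOne ℂ x x, ‖PI‖ * (C * ‖x‖), ⟨x, x, hx, hx, rfl⟩, fun n => ?_⟩
  have hadj : (ContinuousLinearMap.adjoint T - starRingEnd ℂ c • (1 : H →L[ℂ] H)) ^ n =
      ContinuousLinearMap.adjoint ((T - c • (1 : H →L[ℂ] H)) ^ n) := by
    rw [← ContinuousLinearMap.star_eq_adjoint, ← ContinuousLinearMap.star_eq_adjoint, star_pow,
      star_sub, star_smul, star_one]
    rfl
  have e1 : π (rankOne ℂ x x) * (π T - c • (1 : X →L[ℂ] X)) ^ n =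
      PI (rankOne ℂ x (((ContinuousLinearMap.adjoint T -
        starRingEnd ℂ c • (1 : H →L[ℂ] H)) ^ n) x)) := by
    rw [hPI]
    have e2 : (rankOne ℂ x (((ContinuousLinearMap.adjoint T -
        starRingEnd ℂ c • (1 : H →L[ℂ] H)) ^ n) x) : H →L[ℂ] H) =
        rankOne ℂ x x * (T - c • (1 : H →L[ℂ] H)) ^ n := by
      ext f
      rw [hadj]
      simp [rankOne_apply, ContinuousLinearMap.adjoint_inner_left]
    rw [e2, map_mul, map_pow, map_sub, map_smul, map_one]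
  rw [e1]
  calc _ ≤ ‖PI‖ * ‖(rankOne ℂ x (((ContinuousLinearMap.adjoint T -
        starRingEnd ℂ c • (1 : H →L[ℂ] H)) ^ n) x) : H →L[ℂ] H)‖ := PI.le_opNorm _
    _ = ‖PI‖ * (‖x‖ * ‖((ContinuousLinearMap.adjoint T -
        starRingEnd ℂ c • (1 : H →L[ℂ] H)) ^ n) x‖) := by rw [norm_rankOne]
    _ ≤ ‖PI‖ * (‖x‖ * (C * ε ^ n)) := by gcongr; exact hx' n
    _ = _ := by ring

omit [CompleteSpace H] in
theorem exists_vec (a : X →L[ℂ] X) (ha : a ≠ 0) : ∃ ξ : X, a ξ ≠ 0 := by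
  by_contra h
  push Not at h
  exact ha (by ext ξ; simpa using h ξ)

/-- small local spectra pass to `π T` -/
theorem SV_of_rep (T : H →L[ℂ] H) (c : ℂ) (h : SV T c) (π : (H →L[ℂ] H) →ₐ[ℂ] (X →L[ℂ] X))
    (hc : Continuous π) (hπ : ∃ x y : H, π (rankOne ℂ x y) ≠ 0) : SV (π T) c := by
  intro ε hε
  obtain ⟨P, C, ⟨x, y, hx, hy, rfl⟩, hP⟩ := SV_rep T c h π hc hπ ε hε
  obtain ⟨ξ, hξ⟩ := exists_vec _ (rep_rankOne π hπ hx hy)
  refine ⟨π (rankOne ℂ x y) ξ, C * ‖ξ‖, hξ, fun n => ?_⟩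
  calc ‖((π T - c • (1 : X →L[ℂ] X)) ^ n) (π (rankOne ℂ x y) ξ)‖
      = ‖((π T - c • (1 : X →L[ℂ] X)) ^ n * π (rankOne ℂ x y)) ξ‖ := rfl
    _ ≤ ‖(π T - c • (1 : X →L[ℂ] X)) ^ n * π (rankOne ℂ x y)‖ * ‖ξ‖ :=
        ContinuousLinearMap.le_opNorm _ _
    _ ≤ (C * ε ^ n) * ‖ξ‖ := by gcongr; exact hP n
    _ = _ := by ring

theorem SF_of_rep (T : H →L[ℂ] H) (c : ℂ)
    (h : SV (ContinuousLinearMap.adjoint T) (starRingEnd ℂ c)) (π : (H →L[ℂ] H) →ₐ[ℂ] (X →L[ℂ] X))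
    (hc : Continuous π) (hπ : ∃ x y : H, π (rankOne ℂ x y) ≠ 0) : SF (π T) c := by
  intro ε hε
  obtain ⟨P, C, ⟨x, y, hx, hy, rfl⟩, hP⟩ := SF_rep T c h π hc ε hε
  obtain ⟨ξ, hξ⟩ := exists_vec _ (rep_rankOne π hπ hx hy)
  obtain ⟨ζ, -, hζ⟩ := exists_dual_vector ℂ _ (norm_ne_zero_iff.2 hξ)
  refine ⟨ζ.comp (π (rankOne ℂ x y)), ‖ζ‖ * C, ?_, fun n => ?_⟩
  · intro h0
    have := congrArg (fun a : X →L[ℂ] ℂ => a ξ) h0
    simp only [ContinuousLinearMap.comp_apply, ContinuousLinearMap.zero_apply] at this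
    rw [hζ] at this
    simp at this
    exact hξ this
  · calc ‖(ζ.comp (π (rankOne ℂ x y))).comp ((π T - c • (1 : X →L[ℂ] X)) ^ n)‖
        = ‖ζ.comp (π (rankOne ℂ x y) * (π T - c • (1 : X →L[ℂ] X)) ^ n)‖ := rfl
      _ ≤ ‖ζ‖ * ‖π (rankOne ℂ x y) * (π T - c • (1 : X →L[ℂ] X)) ^ n‖ :=
          ContinuousLinearMap.opNorm_comp_le _ _
      _ ≤ ‖ζ‖ * (C * ε ^ n) := by gcongr; exact hP n
      _ = _ := by ring

theorem adj_mem (T : H →L[ℂ] H) {c : ℂ} (hc : c ∈ spectrum ℂ T) :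
    starRingEnd ℂ c ∈ spectrum ℂ (ContinuousLinearMap.adjoint T) := by
  rw [← ContinuousLinearMap.star_eq_adjoint, spectrum.map_star]
  simpa using hc

end rep

end Pool.Agent.Q142.HS
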