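import Mathlib
import Pool.Agent.Q142.HS.Rep

/-! Functions of two commuting operators with small local spectra. -/

set_option autoImplicit false

open Filter Topology Bornology InnerProductSpace
open scoped InnerProductSpace

namespace Pool.Agent.Q142.HS

section two

variable {X : Type*} [NormedAddCommGroup X] [NormedSpace ℂ X]

/-- small right multiples -/
def RV (S : X →L[ℂ] X) (c : ℂ) (p : (X →L[ℂ] X) → Prop) : Prop :=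
  ∀ ε : ℝ, 0 < ε → ∃ (P : X →L[ℂ] X) (C : ℝ), p P ∧
    ∀ n : ℕ, ‖(S - c • (1 : X →L[ℂ] X)) ^ n * P‖ ≤ C * ε ^ n

/-- small left multiples -/
def LV (S : X →L[ℂ] X) (c : ℂ) (p : (X →L[ℂ] X) → Prop) : Prop :=
  ∀ ε : ℝ, 0 < ε → ∃ (P : X →L[ℂ] X) (C : ℝ), p P ∧
    ∀ n : ℕ, ‖P * (S - c • (1 : X →L[ℂ] X)) ^ n‖ ≤ C * ε ^ n

/-- the polynomial `∑ a j k S₁^j S₂^k` -/
noncomputable def Po (m : ℕ) (a : ℕ → ℕ → ℂ) (S₁ S₂ : X →L[ℂ] X) : X →L[ℂ] X :=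
  ∑ j ∈ Finset.range m, ∑ k ∈ Finset.range m, a j k • (S₁ ^ j * S₂ ^ k)

/-- its value at numbers -/
noncomputable def Pv (m : ℕ) (a : ℕ → ℕ → ℂ) (c d : ℂ) : ℂ :=
  ∑ j ∈ Finset.range m, ∑ k ∈ Finset.range m, a j k * (c ^ j * d ^ k)

theorem Po_split (m : ℕ) (a : ℕ → ℕ → ℂ) (S₁ S₂ : X →L[ℂ] X) (h12 : Commute S₁ S₂) (c d : ℂ) :
    ∃ D₁ D₂ : X →L[ℂ] X, Po m a S₁ S₂ - Pv m a c d • (1 : X →L[ℂ] X) =
      D₁ * (S₁ - c • (1 : X →L[ℂ] X)) + D₂ * (S₂ - d • (1 : X →L[ℂ] X)) ∧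
      (∀ Q : X →L[ℂ] X, Commute Q S₁ → Commute Q S₂ → Commute Q D₁ ∧ Commute Q D₂) := by
  have hcs : ∀ (S : X →L[ℂ] X) (e : ℂ), Commute S (e • (1 : X →L[ℂ] X)) := fun S e =>
    (Commute.one_right S).smul_right e
  refine ⟨∑ j ∈ Finset.range m, ∑ k ∈ Finset.range m, a j k •
      ((∑ i ∈ Finset.range j, S₁ ^ i * (c • (1 : X →L[ℂ] X)) ^ (j - 1 - i)) * S₂ ^ k),
    ∑ j ∈ Finset.range m, ∑ k ∈ Finset.range m, (a j k * c ^ j) •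
      (∑ i ∈ Finset.range k, S₂ ^ i * (d • (1 : X →L[ℂ] X)) ^ (k - 1 - i)), ?_, ?_⟩
  · unfold Po Pv
    rw [Finset.sum_mul, Finset.sum_mul, Finset.sum_smul, ← Finset.sum_sub_distrib,
      ← Finset.sum_add_distrib]
    refine Finset.sum_congr rfl fun j _ => ?_
    rw [Finset.sum_mul, Finset.sum_mul, Finset.sum_smul, ← Finset.sum_sub_distrib,
      ← Finset.sum_add_distrib]
    refine Finset.sum_congr rfl fun k _ => ?_
    have e1 := (hcs S₁ c).geom_sum₂_mul j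
    have e2 := (hcs S₂ d).geom_sum₂_mul k
    have e3 : Commute (S₂ ^ k) (S₁ - c • (1 : X →L[ℂ] X)) :=
      (h12.symm.sub_right (hcs S₂ c)).pow_left k
    have e4 : (∑ i ∈ Finset.range j, S₁ ^ i * (c • (1 : X →L[ℂ] X)) ^ (j - 1 - i)) * S₂ ^ k *
        (S₁ - c • (1 : X →L[ℂ] X)) = (S₁ ^ j - (c • (1 : X →L[ℂ] X)) ^ j) * S₂ ^ k := by
      rw [mul_assoc, e3.eq, ← mul_assoc, e1]
    rw [smul_mul_assoc, smul_mul_assoc, e4, e2]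
    simp only [smul_pow, one_pow, sub_mul, smul_mul_assoc, one_mul, smul_sub, smul_smul]
    rw [mul_assoc (a j k)]
    abel
  · intro Q h1 h2
    constructor
    · refine Commute.sum_right _ _ _ fun j _ => Commute.sum_right _ _ _ fun k _ => ?_
      refine Commute.smul_right (Commute.mul_right (Commute.sum_right _ _ _ fun i _ => ?_)
        (h2.pow_right k)) _
      exact (h1.pow_right i).mul_right ((hcs Q c).pow_right _)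
    · refine Commute.sum_right _ _ _ fun j _ => Commute.sum_right _ _ _ fun k _ => ?_
      refine Commute.smul_right (Commute.sum_right _ _ _ fun i _ => ?_) _
      exact (h2.pow_right i).mul_right ((hcs Q d).pow_right _)

theorem norm_pl (D T : X →L[ℂ] X) (i : ℕ) : ‖D ^ i * T‖ ≤ ‖D‖ ^ i * ‖T‖ := by
  induction i with
  | zero => simp
  | succ i ih =>
    rw [pow_succ', mul_assoc, pow_succ']
    calc _ ≤ ‖D‖ * ‖D ^ i * T‖ := norm_mul_le _ _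
      _ ≤ ‖D‖ * (‖D‖ ^ i * ‖T‖) := by gcongr
      _ = _ := by ring

theorem norm_pr (D T : X →L[ℂ] X) (i : ℕ) : ‖T * D ^ i‖ ≤ ‖D‖ ^ i * ‖T‖ := by
  induction i with
  | zero => simp
  | succ i ih =>
    rw [pow_succ, ← mul_assoc, pow_succ]
    calc _ ≤ ‖T * D ^ i‖ * ‖D‖ := norm_mul_le _ _
      _ ≤ (‖D‖ ^ i * ‖T‖) * ‖D‖ := by gcongr
      _ = _ := by ring

theorem binom_bound (a b C : ℝ) (ε K : ℝ) (hK : 0 < K) (ha : 0 ≤ a) (hb : 0 ≤ b) (hC : 0 ≤ C)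
    (hε : 0 < ε) (hab : a + b ≤ K) (n : ℕ) :
    ∑ i ∈ Finset.range (n + 1), (a * (ε / K)) ^ i * (b * (ε / K)) ^ (n - i) * n.choose i * C ≤
      C * ε ^ n := by
  rw [← Finset.sum_mul, ← add_pow, mul_comm]
  gcongr
  rw [← add_mul]
  calc (a + b) * (ε / K) ≤ K * (ε / K) := by gcongr
    _ = ε := by field_simp

/-- small vectors for polynomials -/
theorem SV_Po (m : ℕ) (a : ℕ → ℕ → ℂ) (S₁ S₂ : X →L[ℂ] X) (h12 : Commute S₁ S₂) (c d : ℂ)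
    (p₁ p₂ : (X →L[ℂ] X) → Prop) (h1 : RV S₁ c p₁) (h2 : RV S₂ d p₂)
    (hp1 : ∀ P, p₁ P → Commute P S₂)
    (hpp : ∀ P Q, p₁ P → p₂ Q → P * Q ≠ 0) :
    SV (Po m a S₁ S₂) (Pv m a c d) := by
  obtain ⟨D₁, D₂, hD, hDc⟩ := Po_split m a S₁ S₂ h12 c d
  intro ε hε
  set K : ℝ := ‖D₁‖ + ‖D₂‖ + 1 with hK
  have hKpos : 0 < K := by positivity
  have hε' : 0 < ε / K := by positivity
  obtain ⟨P₁, C₁, hP₁, hb₁⟩ := h1 (ε / K) hε'
  obtain ⟨P₂, C₂, hP₂, hb₂⟩ := h2 (ε / K) hε'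
  obtain ⟨ξ, hξ⟩ := exists_vec _ (hpp P₁ P₂ hP₁ hP₂)
  set W₁ := S₁ - c • (1 : X →L[ℂ] X) with hW₁
  set W₂ := S₂ - d • (1 : X →L[ℂ] X) with hW₂
  have hC₁ : 0 ≤ C₁ := by simpa using (norm_nonneg _).trans (hb₁ 0)
  have hC₂ : 0 ≤ C₂ := by simpa using (norm_nonneg _).trans (hb₂ 0)
  have hsm : ∀ (Q S : X →L[ℂ] X) (e : ℂ), Commute Q S → Commute Q (S - e • (1 : X →L[ℂ] X)) :=
    fun Q S e h => h.sub_right ((Commute.one_right Q).smul_right e)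
  have c12 : Commute W₁ W₂ := (hsm _ _ _ (hsm _ _ _ h12).symm).symm
  have cW1 := hDc W₁ ((hsm _ _ _ (Commute.refl S₁)).symm) ((hsm _ _ _ h12.symm).symm)
  have cW2 := hDc W₂ ((hsm _ _ _ h12).symm) ((hsm _ _ _ (Commute.refl S₂)).symm)
  have cD12 : Commute D₁ D₂ := (hDc D₁ (hDc S₁ (Commute.refl _) h12).1.symm
    (hDc S₂ h12.symm (Commute.refl _)).1.symm).2
  have cPW : Commute P₁ W₂ := hsm _ _ _ (hp1 P₁ hP₁)
  have hbound : ∀ n : ℕ, ‖(D₁ * W₁ + D₂ * W₂) ^ n * (P₁ * P₂)‖ ≤ C₁ * C₂ * ε ^ n := by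
    intro n
    have hcomm : Commute (D₁ * W₁) (D₂ * W₂) :=
      (cD12.mul_left cW1.2).mul_right (cW2.1.symm.mul_left c12)
    rw [hcomm.add_pow, Finset.sum_mul]
    refine le_trans ?_ (binom_bound ‖D₁‖ ‖D₂‖ (C₁ * C₂) ε K hKpos (norm_nonneg _) (norm_nonneg _)
      (by positivity) hε (by rw [hK]; linarith) n)
    refine (norm_sum_le _ _).trans (Finset.sum_le_sum fun i _ => ?_)
    have e1 : (D₁ * W₁) ^ i * (D₂ * W₂) ^ (n - i) * (n.choose i : X →L[ℂ] X) * (P₁ * P₂) =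
        (n.choose i : ℂ) • (D₁ ^ i * (D₂ ^ (n - i) * ((W₁ ^ i * P₁) * (W₂ ^ (n - i) * P₂)))) := by
      have e2 : (n.choose i : X →L[ℂ] X) = (n.choose i : ℂ) • (1 : X →L[ℂ] X) := by
        rw [← Algebra.algebraMap_eq_smul_one]; simp
      rw [e2, mul_smul_comm, mul_one, smul_mul_assoc, cW1.1.symm.mul_pow, cW2.2.symm.mul_pow]
      congr 1
      have f1 : W₁ ^ i * D₂ ^ (n - i) = D₂ ^ (n - i) * W₁ ^ i := (cW1.2.pow_pow _ _).eq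
      have f2 : W₂ ^ (n - i) * P₁ = P₁ * W₂ ^ (n - i) := (cPW.symm.pow_left _).eq
      calc D₁ ^ i * W₁ ^ i * (D₂ ^ (n - i) * W₂ ^ (n - i)) * (P₁ * P₂)
          = D₁ ^ i * (W₁ ^ i * D₂ ^ (n - i)) * (W₂ ^ (n - i) * P₁) * P₂ := by
            simp only [mul_assoc]
        _ = _ := by rw [f1, f2]; simp only [mul_assoc]
    rw [e1, norm_smul, Complex.norm_natCast]
    calc (n.choose i : ℝ) * ‖D₁ ^ i * (D₂ ^ (n - i) * ((W₁ ^ i * P₁) * (W₂ ^ (n - i) * P₂)))‖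
        ≤ (n.choose i : ℝ) * (‖D₁‖ ^ i * (‖D₂‖ ^ (n - i) * ((C₁ * (ε / K) ^ i) *
            (C₂ * (ε / K) ^ (n - i))))) := by
          gcongr
          refine (norm_pl _ _ _).trans ?_
          gcongr
          refine (norm_pl _ _ _).trans ?_
          gcongr
          refine (norm_mul_le _ _).trans ?_
          exact mul_le_mul (hb₁ i) (hb₂ (n - i)) (norm_nonneg _) (by positivity)
      _ = _ := by rw [mul_pow, mul_pow]; ring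
  refine ⟨(P₁ * P₂) ξ, C₁ * C₂ * ‖ξ‖, hξ, fun n => ?_⟩
  rw [hD]
  calc ‖((D₁ * W₁ + D₂ * W₂) ^ n) ((P₁ * P₂) ξ)‖ = ‖((D₁ * W₁ + D₂ * W₂) ^ n * (P₁ * P₂)) ξ‖ := rfl
    _ ≤ ‖(D₁ * W₁ + D₂ * W₂) ^ n * (P₁ * P₂)‖ * ‖ξ‖ := ContinuousLinearMap.le_opNorm _ _
    _ ≤ (C₁ * C₂ * ε ^ n) * ‖ξ‖ := by gcongr; exact hbound n
    _ = _ := by ring

/-- small functionals for polynomials -/
theorem SF_Po (m : ℕ) (a : ℕ → ℕ → ℂ) (S₁ S₂ : X →L[ℂ] X) (h12 : Commute S₁ S₂) (c d : ℂ)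
    (p₁ p₂ : (X →L[ℂ] X) → Prop) (h1 : LV S₁ c p₁) (h2 : LV S₂ d p₂)
    (hp2 : ∀ P, p₂ P → Commute P S₁)
    (hpp : ∀ P Q, p₁ P → p₂ Q → P * Q ≠ 0) :
    SF (Po m a S₁ S₂) (Pv m a c d) := by
  obtain ⟨D₁, D₂, hD, hDc⟩ := Po_split m a S₁ S₂ h12 c d
  intro ε hε
  set K : ℝ := ‖D₁‖ + ‖D₂‖ + 1 with hK
  have hKpos : 0 < K := by positivity
  have hε' : 0 < ε / K := by positivity
  obtain ⟨P₁, C₁, hP₁, hb₁⟩ := h1 (ε / K) hε'
  obtain ⟨P₂, C₂, hP₂, hb₂⟩ := h2 (ε / K) hε'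
  obtain ⟨ξ, hξ⟩ := exists_vec _ (hpp P₁ P₂ hP₁ hP₂)
  obtain ⟨ζ, -, hζ⟩ := exists_dual_vector ℂ _ (norm_ne_zero_iff.2 hξ)
  set W₁ := S₁ - c • (1 : X →L[ℂ] X) with hW₁
  set W₂ := S₂ - d • (1 : X →L[ℂ] X) with hW₂
  have hC₁ : 0 ≤ C₁ := by simpa using (norm_nonneg _).trans (hb₁ 0)
  have hC₂ : 0 ≤ C₂ := by simpa using (norm_nonneg _).trans (hb₂ 0)
  have hsm : ∀ (Q S : X →L[ℂ] X) (e : ℂ), Commute Q S → Commute Q (S - e • (1 : X →L[ℂ] X)) :=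
    fun Q S e h => h.sub_right ((Commute.one_right Q).smul_right e)
  have c12 : Commute W₁ W₂ := (hsm _ _ _ (hsm _ _ _ h12).symm).symm
  have cW1 := hDc W₁ ((hsm _ _ _ (Commute.refl S₁)).symm) ((hsm _ _ _ h12.symm).symm)
  have cW2 := hDc W₂ ((hsm _ _ _ h12).symm) ((hsm _ _ _ (Commute.refl S₂)).symm)
  have cD12 : Commute D₁ D₂ := (hDc D₁ (hDc S₁ (Commute.refl _) h12).1.symm
    (hDc S₂ h12.symm (Commute.refl _)).1.symm).2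
  have cPW : Commute P₂ W₁ := hsm _ _ _ (hp2 P₂ hP₂)
  have hbound : ∀ n : ℕ, ‖(P₁ * P₂) * (D₁ * W₁ + D₂ * W₂) ^ n‖ ≤ C₁ * C₂ * ε ^ n := by
    intro n
    have hcomm : Commute (D₁ * W₁) (D₂ * W₂) :=
      (cD12.mul_left cW1.2).mul_right (cW2.1.symm.mul_left c12)
    rw [hcomm.add_pow, Finset.mul_sum]
    refine le_trans ?_ (binom_bound ‖D₁‖ ‖D₂‖ (C₁ * C₂) ε K hKpos (norm_nonneg _) (norm_nonneg _)
      (by positivity) hε (by rw [hK]; linarith) n)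
    refine (norm_sum_le _ _).trans (Finset.sum_le_sum fun i _ => ?_)
    have e1 : (P₁ * P₂) * ((D₁ * W₁) ^ i * (D₂ * W₂) ^ (n - i) * (n.choose i : X →L[ℂ] X)) =
        (n.choose i : ℂ) • (((P₁ * W₁ ^ i) * (P₂ * W₂ ^ (n - i))) * D₂ ^ (n - i)) * D₁ ^ i := by
      have e2 : (n.choose i : X →L[ℂ] X) = (n.choose i : ℂ) • (1 : X →L[ℂ] X) := by
        rw [← Algebra.algebraMap_eq_smul_one]; simp
      rw [e2, mul_smul_comm, mul_one, mul_smul_comm, smul_mul_assoc, cW1.1.symm.mul_pow,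
        cW2.2.symm.mul_pow]
      congr 1
      have f1 : P₂ * W₁ ^ i = W₁ ^ i * P₂ := (cPW.pow_right i).eq
      have f2 : D₁ ^ i * W₁ ^ i = W₁ ^ i * D₁ ^ i := (cW1.1.symm.pow_pow _ _).eq
      have f3 : D₁ ^ i * (D₂ ^ (n - i) * W₂ ^ (n - i)) = W₂ ^ (n - i) * D₂ ^ (n - i) * D₁ ^ i := by
        have g1 : Commute (D₁ ^ i) (D₂ ^ (n - i) * W₂ ^ (n - i)) :=
          (cD12.pow_pow _ _).mul_right (cW2.1.symm.pow_pow _ _)
        rw [g1.eq, (cW2.2.symm.pow_pow _ _).eq]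
      calc P₁ * P₂ * (D₁ ^ i * W₁ ^ i * (D₂ ^ (n - i) * W₂ ^ (n - i)))
          = P₁ * (P₂ * W₁ ^ i) * (D₁ ^ i * (D₂ ^ (n - i) * W₂ ^ (n - i))) := by
            rw [f2]; simp only [mul_assoc]
        _ = _ := by rw [f1, f3]; simp only [mul_assoc]
    rw [e1]
    calc ‖(n.choose i : ℂ) • (((P₁ * W₁ ^ i) * (P₂ * W₂ ^ (n - i))) * D₂ ^ (n - i)) * D₁ ^ i‖
        ≤ ‖D₁‖ ^ i * ‖(n.choose i : ℂ) • (((P₁ * W₁ ^ i) * (P₂ * W₂ ^ (n - i))) *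
            D₂ ^ (n - i))‖ := norm_pr _ _ _
      _ ≤ ‖D₁‖ ^ i * ((n.choose i : ℝ) * (‖D₂‖ ^ (n - i) * ((C₁ * (ε / K) ^ i) *
            (C₂ * (ε / K) ^ (n - i))))) := by
          rw [norm_smul, Complex.norm_natCast]
          gcongr
          refine (norm_pr _ _ _).trans ?_
          gcongr
          refine (norm_mul_le _ _).trans ?_
          exact mul_le_mul (hb₁ i) (hb₂ (n - i)) (norm_nonneg _) (by positivity)
      _ = _ := by rw [mul_pow, mul_pow]; ring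
  refine ⟨ζ.comp (P₁ * P₂), ‖ζ‖ * (C₁ * C₂), ?_, fun n => ?_⟩
  · intro h0
    have := congrArg (fun a : X →L[ℂ] ℂ => a ξ) h0
    simp only [ContinuousLinearMap.comp_apply, ContinuousLinearMap.zero_apply] at this
    rw [hζ] at this
    simp at this
    exact hξ this
  · rw [hD]
    calc ‖(ζ.comp (P₁ * P₂)).comp ((D₁ * W₁ + D₂ * W₂) ^ n)‖
        = ‖ζ.comp ((P₁ * P₂) * (D₁ * W₁ + D₂ * W₂) ^ n)‖ := rfl
      _ ≤ ‖ζ‖ * ‖(P₁ * P₂) * (D₁ * W₁ + D₂ * W₂) ^ n‖ :=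
          ContinuousLinearMap.opNorm_comp_le _ _
      _ ≤ ‖ζ‖ * (C₁ * C₂ * ε ^ n) := by gcongr; exact hbound n
      _ = _ := by ring

end two

end Pool.Agent.Q142.HS
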