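import Mathlib
import Pool.Agent.Q142.HS.Two

/-! Two commuting representations. -/

set_option autoImplicit false

open Filter Topology Bornology InnerProductSpace MulOpposite
open scoped InnerProductSpace

namespace Pool.Agent.Q142.HS

section fac

variable {H : Type*} [NormedAddCommGroup H] [InnerProductSpace ℂ H]

theorem rk_fac {x y : H} (hx : x ≠ 0) (hy : y ≠ 0) (x₀ y₀ : H) :
    ∃ A C : H →L[ℂ] H, rankOne ℂ x₀ y₀ = A * rankOne ℂ x y * C := by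
  have hxx : (⟪x, x⟫_ℂ) ≠ 0 := by simpa using hx
  have hyy : (⟪y, y⟫_ℂ) ≠ 0 := by simpa using hy
  refine ⟨((⟪x, x⟫_ℂ)⁻¹ * (⟪y, y⟫_ℂ)⁻¹) • rankOne ℂ x₀ x, rankOne ℂ y y₀, ?_⟩
  ext f
  simp only [rankOne_apply, ContinuousLinearMap.smul_apply, ContinuousLinearMap.mul_apply,
    inner_smul_right, smul_smul]
  congr 1
  field_simp

end fac

section pair

variable {H : Type*} [NormedAddCommGroup H] [InnerProductSpace ℂ H]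
variable {K : Type*} [NormedAddCommGroup K] [InnerProductSpace ℂ K]
variable {X : Type*} [NormedAddCommGroup X] [NormedSpace ℂ X]

/-- images of rank one operators under a homomorphism -/
def pr (π : (H →L[ℂ] H) →ₐ[ℂ] (X →L[ℂ] X)) (Q : X →L[ℂ] X) : Prop :=
  ∃ x y : H, x ≠ 0 ∧ y ≠ 0 ∧ Q = π (rankOne ℂ x y)

/-- images of rank one operators under an antihomomorphism -/
def po (π : (H →L[ℂ] H)ᵐᵒᵖ →ₐ[ℂ] (X →L[ℂ] X)) (Q : X →L[ℂ] X) : Prop :=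
  ∃ x y : H, x ≠ 0 ∧ y ≠ 0 ∧ Q = π (op (rankOne ℂ x y))

theorem ring_zero {R : Type*} [Ring R] (A₁ r₁ C₁ A₂ r₂ C₂ : R) (h1 : Commute C₁ A₂)
    (h2 : Commute r₁ A₂) (h3 : Commute C₁ r₂) (h : r₁ * r₂ = 0) :
    (A₁ * r₁ * C₁) * (A₂ * r₂ * C₂) = 0 := by
  calc (A₁ * r₁ * C₁) * (A₂ * r₂ * C₂) = A₁ * r₁ * (C₁ * A₂) * r₂ * C₂ := by
        simp only [mul_assoc]
    _ = A₁ * (r₁ * A₂) * (C₁ * r₂) * C₂ := by rw [h1.eq]; simp only [mul_assoc]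
    _ = A₁ * A₂ * (r₁ * r₂) * C₁ * C₂ := by rw [h2.eq, h3.eq]; simp only [mul_assoc]
    _ = 0 := by rw [h]; simp

theorem pp_hom (π₁ : (H →L[ℂ] H) →ₐ[ℂ] (X →L[ℂ] X)) (π₂ : (K →L[ℂ] K) →ₐ[ℂ] (X →L[ℂ] X))
    (hcomm : ∀ a b, π₁ a * π₂ b = π₂ b * π₁ a) (x₀ y₀ : H) (z₀ w₀ : K)
    (h0 : π₁ (rankOne ℂ x₀ y₀) * π₂ (rankOne ℂ z₀ w₀) ≠ 0) :
    ∀ P Q, pr π₁ P → pr π₂ Q → P * Q ≠ 0 := by
  rintro P Q ⟨x, y, hx, hy, rfl⟩ ⟨z, w, hz, hw, rfl⟩ h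
  apply h0
  obtain ⟨A₁, C₁, e₁⟩ := rk_fac hx hy x₀ y₀
  obtain ⟨A₂, C₂, e₂⟩ := rk_fac hz hw z₀ w₀
  rw [e₁, e₂, map_mul, map_mul, map_mul, map_mul]
  exact ring_zero _ _ _ _ _ _ (hcomm _ _) (hcomm _ _) (hcomm _ _) h

theorem pp_op (π₁ : (H →L[ℂ] H) →ₐ[ℂ] (X →L[ℂ] X)) (π₂ : (K →L[ℂ] K)ᵐᵒᵖ →ₐ[ℂ] (X →L[ℂ] X))
    (hcomm : ∀ a b, π₁ a * π₂ b = π₂ b * π₁ a) (x₀ y₀ : H) (z₀ w₀ : K)
    (h0 : π₁ (rankOne ℂ x₀ y₀) * π₂ (op (rankOne ℂ z₀ w₀)) ≠ 0) :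
    ∀ P Q, pr π₁ P → po π₂ Q → P * Q ≠ 0 := by
  rintro P Q ⟨x, y, hx, hy, rfl⟩ ⟨z, w, hz, hw, rfl⟩ h
  apply h0
  obtain ⟨A₁, C₁, e₁⟩ := rk_fac hx hy x₀ y₀
  obtain ⟨A₂, C₂, e₂⟩ := rk_fac hz hw z₀ w₀
  rw [e₁, e₂, map_mul, map_mul, op_mul, op_mul, map_mul, map_mul, ← mul_assoc (π₂ (op C₂))]
  exact ring_zero _ _ _ _ _ _ (hcomm _ _) (hcomm _ _) (hcomm _ _) h

variable [CompleteSpace H]

theorem RV_hom (T : H →L[ℂ] H) (c : ℂ) (h : SV T c) (π : (H →L[ℂ] H) →ₐ[ℂ] (X →L[ℂ] X))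
    (hc : Continuous π) (hπ : ∃ x y : H, π (rankOne ℂ x y) ≠ 0) : RV (π T) c (pr π) := by
  intro ε hε
  obtain ⟨P, C, ⟨x, y, hx, hy, rfl⟩, hP⟩ := SV_rep T c h π hc hπ ε hε
  exact ⟨_, C, ⟨x, y, hx, hy, rfl⟩, hP⟩

theorem LV_hom (T : H →L[ℂ] H) (c : ℂ)
    (h : SV (ContinuousLinearMap.adjoint T) (starRingEnd ℂ c)) (π : (H →L[ℂ] H) →ₐ[ℂ] (X →L[ℂ] X))
    (hc : Continuous π) : LV (π T) c (pr π) := by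
  intro ε hε
  obtain ⟨P, C, ⟨x, y, hx, hy, rfl⟩, hP⟩ := SF_rep T c h π hc ε hε
  exact ⟨_, C, ⟨x, y, hx, hy, rfl⟩, hP⟩

theorem RV_op (T : H →L[ℂ] H) (c : ℂ)
    (h : SV (ContinuousLinearMap.adjoint T) (starRingEnd ℂ c))
    (π : (H →L[ℂ] H)ᵐᵒᵖ →ₐ[ℂ] (X →L[ℂ] X)) (hc : Continuous π) : RV (π (op T)) c (po π) := by
  intro ε hε
  obtain ⟨x, C, hx, hx'⟩ := h ε hε
  let PI : (H →L[ℂ] H)ᵐᵒᵖ →L[ℂ] (X →L[ℂ] X) := ⟨π.toLinearMap, hc⟩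
  have hPI : ∀ a, PI a = π a := fun a => rfl
  refine ⟨π (op (rankOne ℂ x x)), ‖PI‖ * (C * ‖x‖), ⟨x, x, hx, hx, rfl⟩, fun n => ?_⟩
  have hadj : (ContinuousLinearMap.adjoint T - starRingEnd ℂ c • (1 : H →L[ℂ] H)) ^ n =
      ContinuousLinearMap.adjoint ((T - c • (1 : H →L[ℂ] H)) ^ n) := by
    rw [← ContinuousLinearMap.star_eq_adjoint, ← ContinuousLinearMap.star_eq_adjoint, star_pow,
      star_sub, star_smul, star_one]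
    rfl
  have e1 : (π (op T) - c • (1 : X →L[ℂ] X)) ^ n * π (op (rankOne ℂ x x)) =
      PI (op (rankOne ℂ x (((ContinuousLinearMap.adjoint T -
        starRingEnd ℂ c • (1 : H →L[ℂ] H)) ^ n) x))) := by
    rw [hPI]
    have e2 : (rankOne ℂ x (((ContinuousLinearMap.adjoint T -
        starRingEnd ℂ c • (1 : H →L[ℂ] H)) ^ n) x) : H →L[ℂ] H) =
        rankOne ℂ x x * (T - c • (1 : H →L[ℂ] H)) ^ n := by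
      ext f
      rw [hadj]
      simp [rankOne_apply, ContinuousLinearMap.adjoint_inner_left]
    rw [e2, op_mul, map_mul, op_pow, map_pow, op_sub, map_sub, op_smul, map_smul, op_one, map_one]
  rw [e1]
  calc _ ≤ ‖PI‖ * ‖op (rankOne ℂ x (((ContinuousLinearMap.adjoint T -
        starRingEnd ℂ c • (1 : H →L[ℂ] H)) ^ n) x) : H →L[ℂ] H)‖ := PI.le_opNorm _
    _ = ‖PI‖ * (‖x‖ * ‖((ContinuousLinearMap.adjoint T -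
        starRingEnd ℂ c • (1 : H →L[ℂ] H)) ^ n) x‖) := by rw [MulOpposite.norm_op, norm_rankOne]
    _ ≤ ‖PI‖ * (‖x‖ * (C * ε ^ n)) := by gcongr; exact hx' n
    _ = _ := by ring

omit [CompleteSpace H] in
theorem LV_op (T : H →L[ℂ] H) (c : ℂ) (h : SV T c)
    (π : (H →L[ℂ] H)ᵐᵒᵖ →ₐ[ℂ] (X →L[ℂ] X)) (hc : Continuous π) : LV (π (op T)) c (po π) := by
  intro ε hε
  obtain ⟨x, C, hx, hx'⟩ := h ε hε
  let PI : (H →L[ℂ] H)ᵐᵒᵖ →L[ℂ] (X →L[ℂ] X) := ⟨π.toLinearMap, hc⟩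
  have hPI : ∀ a, PI a = π a := fun a => rfl
  refine ⟨π (op (rankOne ℂ x x)), ‖PI‖ * (C * ‖x‖), ⟨x, x, hx, hx, rfl⟩, fun n => ?_⟩
  have e1 : π (op (rankOne ℂ x x)) * (π (op T) - c • (1 : X →L[ℂ] X)) ^ n =
      PI (op (rankOne ℂ (((T - c • (1 : H →L[ℂ] H)) ^ n) x) x)) := by
    rw [hPI]
    have e2 : (rankOne ℂ (((T - c • (1 : H →L[ℂ] H)) ^ n) x) x : H →L[ℂ] H) =
        (T - c • (1 : H →L[ℂ] H)) ^ n * rankOne ℂ x x := by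
      ext f
      simp [rankOne_apply]
    rw [e2, op_mul, map_mul, op_pow, map_pow, op_sub, map_sub, op_smul, map_smul, op_one, map_one]
  rw [e1]
  calc _ ≤ ‖PI‖ * ‖op (rankOne ℂ (((T - c • (1 : H →L[ℂ] H)) ^ n) x) x : H →L[ℂ] H)‖ :=
        PI.le_opNorm _
    _ = ‖PI‖ * (‖((T - c • (1 : H →L[ℂ] H)) ^ n) x‖ * ‖x‖) := by
        rw [MulOpposite.norm_op, norm_rankOne]
    _ ≤ ‖PI‖ * ((C * ε ^ n) * ‖x‖) := by gcongr; exact hx' n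
    _ = _ := by ring

variable [CompleteSpace K] [CompleteSpace X]

/-- small local spectra of `T` and its adjoint at all points -/
def Sm (T : H →L[ℂ] H) : Prop := (∀ c ∈ spectrum ℂ T, SV T c) ∧
  ∀ c ∈ spectrum ℂ (ContinuousLinearMap.adjoint T), SV (ContinuousLinearMap.adjoint T) c

theorem pair_hom (T₁ : H →L[ℂ] H) (T₂ : K →L[ℂ] K) (g₁ : Sm T₁) (g₂ : Sm T₂)
    (π₁ : (H →L[ℂ] H) →ₐ[ℂ] (X →L[ℂ] X)) (π₂ : (K →L[ℂ] K) →ₐ[ℂ] (X →L[ℂ] X))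
    (hc₁ : Continuous π₁) (hc₂ : Continuous π₂)
    (hcomm : ∀ a b, π₁ a * π₂ b = π₂ b * π₁ a)
    (h0 : ∃ (x₀ y₀ : H) (z₀ w₀ : K), π₁ (rankOne ℂ x₀ y₀) * π₂ (rankOne ℂ z₀ w₀) ≠ 0)
    (m : ℕ) (a : ℕ → ℕ → ℂ) (c c' d d' : ℂ) (hc : c ∈ spectrum ℂ T₁) (hc' : c' ∈ spectrum ℂ T₁)
    (hd : d ∈ spectrum ℂ T₂) (hd' : d' ∈ spectrum ℂ T₂) (hne : Pv m a c d ≠ Pv m a c' d') :
    HasHyperinvariant (Po m a (π₁ T₁) (π₂ T₂)) := by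
  obtain ⟨x₀, y₀, z₀, w₀, h0⟩ := h0
  have e1 : ∃ x y : H, π₁ (rankOne ℂ x y) ≠ 0 := ⟨x₀, y₀, left_ne_zero_of_mul h0⟩
  have e2 : ∃ x y : K, π₂ (rankOne ℂ x y) ≠ 0 := ⟨z₀, w₀, right_ne_zero_of_mul h0⟩
  have h12 : Commute (π₁ T₁) (π₂ T₂) := hcomm _ _
  refine hyper_of_SV_SF _ hne
    (SV_Po m a _ _ h12 c d (pr π₁) (pr π₂) (RV_hom T₁ c (g₁.1 c hc) π₁ hc₁ e1)
      (RV_hom T₂ d (g₂.1 d hd) π₂ hc₂ e2) ?_ (pp_hom π₁ π₂ hcomm x₀ y₀ z₀ w₀ h0))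
    (SF_Po m a _ _ h12 c' d' (pr π₁) (pr π₂) (LV_hom T₁ c' (g₁.2 _ (adj_mem T₁ hc')) π₁ hc₁)
      (LV_hom T₂ d' (g₂.2 _ (adj_mem T₂ hd')) π₂ hc₂) ?_ (pp_hom π₁ π₂ hcomm x₀ y₀ z₀ w₀ h0))
  · rintro _ ⟨x, y, -, -, rfl⟩
    exact hcomm _ _
  · rintro _ ⟨x, y, -, -, rfl⟩
    exact (hcomm _ _).symm

theorem pair_op (T₁ : H →L[ℂ] H) (T₂ : K →L[ℂ] K) (g₁ : Sm T₁) (g₂ : Sm T₂)
    (π₁ : (H →L[ℂ] H) →ₐ[ℂ] (X →L[ℂ] X)) (π₂ : (K →L[ℂ] K)ᵐᵒᵖ →ₐ[ℂ] (X →L[ℂ] X))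
    (hc₁ : Continuous π₁) (hc₂ : Continuous π₂)
    (hcomm : ∀ a b, π₁ a * π₂ b = π₂ b * π₁ a)
    (h0 : ∃ (x₀ y₀ : H) (z₀ w₀ : K), π₁ (rankOne ℂ x₀ y₀) * π₂ (op (rankOne ℂ z₀ w₀)) ≠ 0)
    (m : ℕ) (a : ℕ → ℕ → ℂ) (c c' d d' : ℂ) (hc : c ∈ spectrum ℂ T₁) (hc' : c' ∈ spectrum ℂ T₁)
    (hd : d ∈ spectrum ℂ T₂) (hd' : d' ∈ spectrum ℂ T₂) (hne : Pv m a c d ≠ Pv m a c' d') :
    HasHyperinvariant (Po m a (π₁ T₁) (π₂ (op T₂))) := by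
  obtain ⟨x₀, y₀, z₀, w₀, h0⟩ := h0
  have e1 : ∃ x y : H, π₁ (rankOne ℂ x y) ≠ 0 := ⟨x₀, y₀, left_ne_zero_of_mul h0⟩
  have h12 : Commute (π₁ T₁) (π₂ (op T₂)) := hcomm _ _
  refine hyper_of_SV_SF _ hne
    (SV_Po m a _ _ h12 c d (pr π₁) (po π₂) (RV_hom T₁ c (g₁.1 c hc) π₁ hc₁ e1)
      (RV_op T₂ d (g₂.2 _ (adj_mem T₂ hd)) π₂ hc₂) ?_ (pp_op π₁ π₂ hcomm x₀ y₀ z₀ w₀ h0))
    (SF_Po m a _ _ h12 c' d' (pr π₁) (po π₂) (LV_hom T₁ c' (g₁.2 _ (adj_mem T₁ hc')) π₁ hc₁)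
      (LV_op T₂ d' (g₂.1 _ hd') π₂ hc₂) ?_ (pp_op π₁ π₂ hcomm x₀ y₀ z₀ w₀ h0))
  · rintro _ ⟨x, y, -, -, rfl⟩
    exact hcomm _ _
  · rintro _ ⟨x, y, -, -, rfl⟩
    exact (hcomm _ _).symm

end pair

section elem

variable {H : Type*} [NormedAddCommGroup H] [InnerProductSpace ℂ H]
variable {K : Type*} [NormedAddCommGroup K] [InnerProductSpace ℂ K]

/-- left multiplication on `B(K, H)` -/
noncomputable def lm : (H →L[ℂ] H) →ₐ[ℂ] ((K →L[ℂ] H) →L[ℂ] (K →L[ℂ] H)) :=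
  AlgHom.ofLinearMap (ContinuousLinearMap.compL ℂ K H H).toLinearMap
    (by ext; simp) (fun a b => by ext; simp)

/-- right multiplication on `B(K, H)` -/
noncomputable def rm : (K →L[ℂ] K)ᵐᵒᵖ →ₐ[ℂ] ((K →L[ℂ] H) →L[ℂ] (K →L[ℂ] H)) :=
  AlgHom.ofLinearMap ((ContinuousLinearMap.compL ℂ K K H).flip.toLinearMap ∘ₗ
    (MulOpposite.opLinearEquiv ℂ).symm.toLinearMap)
    (by ext; simp) (fun a b => by ext; simp)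

theorem lm_apply (a : H →L[ℂ] H) (Z : K →L[ℂ] H) : lm a Z = a.comp Z := rfl

theorem rm_apply (b : K →L[ℂ] K) (Z : K →L[ℂ] H) : rm (op b) Z = Z.comp b := rfl

theorem lm_cont : Continuous (lm : (H →L[ℂ] H) →ₐ[ℂ] ((K →L[ℂ] H) →L[ℂ] (K →L[ℂ] H))) :=
  (ContinuousLinearMap.compL ℂ K H H).continuous

theorem rm_cont : Continuous (rm : (K →L[ℂ] K)ᵐᵒᵖ →ₐ[ℂ] ((K →L[ℂ] H) →L[ℂ] (K →L[ℂ] H))) :=
  (ContinuousLinearMap.compL ℂ K K H).flip.continuous.comp MulOpposite.continuous_unop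

theorem lm_rm (a : H →L[ℂ] H) (b : (K →L[ℂ] K)ᵐᵒᵖ) :
    (lm a : (K →L[ℂ] H) →L[ℂ] (K →L[ℂ] H)) * rm b = rm b * lm a := by
  ext Z x
  rfl

theorem lm_rm_ne {x₀ : H} {z₀ : K} (hx : x₀ ≠ 0) (hz : z₀ ≠ 0) :
    (lm (rankOne ℂ x₀ x₀) : (K →L[ℂ] H) →L[ℂ] (K →L[ℂ] H)) * rm (op (rankOne ℂ z₀ z₀)) ≠ 0 := by
  intro h
  have h1 := congrArg (fun a : (K →L[ℂ] H) →L[ℂ] (K →L[ℂ] H) => a (rankOne ℂ x₀ z₀) z₀) h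
  simp only [ContinuousLinearMap.mul_apply, lm_apply, rm_apply, ContinuousLinearMap.comp_apply,
    rankOne_apply, ContinuousLinearMap.zero_apply, inner_smul_right, smul_smul] at h1
  rw [smul_eq_zero] at h1
  rcases h1 with h1 | h1
  · simp [hx, hz] at h1
  · exact hx h1

theorem Po_elem (m : ℕ) (a : ℕ → ℕ → ℂ) (T₁ : H →L[ℂ] H) (T₂ : K →L[ℂ] K)
    (G : (K →L[ℂ] H) →L[ℂ] (K →L[ℂ] H))
    (hG : ∀ Z, G Z = ∑ j ∈ Finset.range m, ∑ k ∈ Finset.range m,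
      a j k • ((T₁ ^ j).comp (Z.comp (T₂ ^ k)))) :
    G = Po m a (lm T₁) (rm (op T₂)) := by
  ext Z x
  rw [hG]
  unfold Po
  simp only [← map_pow, ← op_pow, ContinuousLinearMap.sum_apply, ContinuousLinearMap.smul_apply,
    ContinuousLinearMap.mul_apply, lm_apply, rm_apply]

end elem

end Pool.Agent.Q142.HS
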