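import Mathlib
import Pool.Agent.Q142.HS.Pair
import Pool.Agent.W577.HI.G1
import Pool.Agent.W806.HI.G2

/-! Operators between two operators with small local spectra; extensions. -/

set_option autoImplicit false

open Filter Topology Bornology InnerProductSpace
open scoped InnerProductSpace

namespace Pool.Agent.Q142.HS

section inter

variable {X : Type*} [NormedAddCommGroup X] [NormedSpace ℂ X]
variable {Y : Type*} [NormedAddCommGroup Y] [NormedSpace ℂ Y]

theorem inter_pow (A : X →L[ℂ] X) (T : Y →L[ℂ] Y) (J : Y →L[ℂ] X) (h : ∀ y, A (J y) = J (T y))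
    (c : ℂ) (n : ℕ) (y : Y) :
    ((A - c • (1 : X →L[ℂ] X)) ^ n) (J y) = J (((T - c • (1 : Y →L[ℂ] Y)) ^ n) y) := by
  induction n generalizing y with
  | zero => simp
  | succ n ih =>
    rw [pow_succ, pow_succ]
    simp only [ContinuousLinearMap.mul_apply]
    rw [← ih]
    congr 1
    simp [h]

theorem SV_inter (A : X →L[ℂ] X) (T : Y →L[ℂ] Y) (J : Y →L[ℂ] X) (h : ∀ y, A (J y) = J (T y))
    (hJ : ∀ y, J y = 0 → y = 0) (c : ℂ) (hT : SV T c) : SV A c := by
  intro ε hε
  obtain ⟨x, C, hx, hx'⟩ := hT ε hε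
  refine ⟨J x, ‖J‖ * C, fun h0 => hx (hJ x h0), fun n => ?_⟩
  rw [inter_pow A T J h c n x]
  calc _ ≤ ‖J‖ * ‖((T - c • (1 : Y →L[ℂ] Y)) ^ n) x‖ := J.le_opNorm _
    _ ≤ ‖J‖ * (C * ε ^ n) := by gcongr; exact hx' n
    _ = _ := by ring

theorem SF_inter (A : X →L[ℂ] X) (T : Y →L[ℂ] Y) (Q : X →L[ℂ] Y) (h : ∀ x, Q (A x) = T (Q x))
    (hQ : DenseRange Q) (c : ℂ) (hT : SF T c) : SF A c := by
  intro ε hε
  obtain ⟨φ, C, hφ, hφ'⟩ := hT ε hε
  refine ⟨φ.comp Q, ‖Q‖ * C, ?_, fun n => ?_⟩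
  · intro h0
    apply hφ
    have h1 : (φ : Y → ℂ) = (0 : Y →L[ℂ] ℂ) := by
      refine hQ.equalizer φ.continuous (0 : Y →L[ℂ] ℂ).continuous ?_
      funext x
      have := congrArg (fun a : X →L[ℂ] ℂ => a x) h0
      simpa using this
    ext y
    exact congrFun h1 y
  · have e : (φ.comp Q).comp ((A - c • (1 : X →L[ℂ] X)) ^ n) =
        (φ.comp ((T - c • (1 : Y →L[ℂ] Y)) ^ n)).comp Q := by
      ext x
      simp only [ContinuousLinearMap.comp_apply]
      congr 1
      exact (inter_pow T A Q (fun x => (h x).symm) c n x).symm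
    rw [e]
    calc _ ≤ ‖φ.comp ((T - c • (1 : Y →L[ℂ] Y)) ^ n)‖ * ‖Q‖ := ContinuousLinearMap.opNorm_comp_le _ _
      _ ≤ (C * ε ^ n) * ‖Q‖ := by gcongr; exact hφ' n
      _ = _ := by ring

/-- a functional with small local spectrum from a vector for the adjoint -/
theorem SF_adj {H : Type*} [NormedAddCommGroup H] [InnerProductSpace ℂ H] [CompleteSpace H]
    (T : H →L[ℂ] H) (c : ℂ) (h : SV (ContinuousLinearMap.adjoint T) (starRingEnd ℂ c)) : SF T c := by
  intro ε hε
  obtain ⟨x, C, hx, hx'⟩ := h ε hε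
  have hadj : ∀ n : ℕ, (ContinuousLinearMap.adjoint T - starRingEnd ℂ c • (1 : H →L[ℂ] H)) ^ n =
      ContinuousLinearMap.adjoint ((T - c • (1 : H →L[ℂ] H)) ^ n) := by
    intro n
    rw [← ContinuousLinearMap.star_eq_adjoint, ← ContinuousLinearMap.star_eq_adjoint, star_pow,
      star_sub, star_smul, star_one]
    rfl
  refine ⟨innerSL ℂ x, C, ?_, fun n => ?_⟩
  · intro h0
    have := congrArg (fun a : H →L[ℂ] ℂ => a x) h0
    simp at this
    exact hx this
  · have e : (innerSL ℂ x).comp ((T - c • (1 : H →L[ℂ] H)) ^ n) =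
        innerSL ℂ (((ContinuousLinearMap.adjoint T - starRingEnd ℂ c • (1 : H →L[ℂ] H)) ^ n) x) := by
      ext f
      rw [hadj]
      simp [ContinuousLinearMap.adjoint_inner_left]
    rw [e, innerSL_apply_norm]
    exact hx' n

end inter

section square

variable {X : Type} [NormedAddCommGroup X] [NormedSpace ℂ X] [CompleteSpace X]

/-- an operator whose square after a shift is compact is scalar or has a hyperinvariant subspace -/
theorem hyper_of_square (A : X →L[ℂ] X) (c : ℂ)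
    (h : IsCompactOperator ((A - c • (1 : X →L[ℂ] X)) * (A - c • (1 : X →L[ℂ] X)))) :
    (∃ e : ℂ, A = e • (1 : X →L[ℂ] X)) ∨ HasHyperinvariant A := by
  set K := A - c • (1 : X →L[ℂ] X) with hK
  have hcom : ∀ Q : X →L[ℂ] X, Q * A = A * Q → Q * K = K * Q := by
    intro Q hQ
    rw [hK, mul_sub, sub_mul, hQ]
    simp
  by_cases hs : ∃ κ : ℂ, K * K = κ • (1 : X →L[ℂ] X)
  · obtain ⟨κ, hκ⟩ := hs
    obtain ⟨s, hs⟩ := IsAlgClosed.exists_pow_nat_eq κ (n := 2) (by norm_num)
    have hprod : (K - s • (1 : X →L[ℂ] X)) * (K + s • (1 : X →L[ℂ] X)) = 0 := by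
      rw [sub_mul, mul_add, mul_add, hκ, ← hs]
      simp only [smul_mul_assoc, mul_smul_comm, one_mul, mul_one, smul_smul]
      rw [pow_two]
      abel
    by_cases h1 : K - s • (1 : X →L[ℂ] X) = 0
    · left
      refine ⟨s + c, ?_⟩
      rw [add_smul, ← sub_eq_zero.1 h1, hK]
      abel
    by_cases h2 : K + s • (1 : X →L[ℂ] X) = 0
    · left
      refine ⟨c - s, ?_⟩
      have h3 : K = -(s • (1 : X →L[ℂ] X)) := eq_neg_of_add_eq_zero_left h2
      rw [sub_smul, sub_eq_add_neg, ← h3, hK]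
      abel
    right
    refine ⟨LinearMap.ker ((K - s • (1 : X →L[ℂ] X) : X →L[ℂ] X) : X →ₗ[ℂ] X),
      (K - s • (1 : X →L[ℂ] X)).isClosed_ker, ?_, ?_, ?_⟩
    · intro h3
      apply h2
      ext x
      have h4 : (K + s • (1 : X →L[ℂ] X)) x ∈
          LinearMap.ker ((K - s • (1 : X →L[ℂ] X) : X →L[ℂ] X) : X →ₗ[ℂ] X) := by
        rw [LinearMap.mem_ker]
        have := congrArg (fun a : X →L[ℂ] X => a x) hprod
        simpa using this
      rw [h3] at h4
      simpa using h4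
    · intro h3
      apply h1
      ext x
      have h4 : x ∈ LinearMap.ker ((K - s • (1 : X →L[ℂ] X) : X →L[ℂ] X) : X →ₗ[ℂ] X) := by
        rw [h3]; trivial
      simpa using h4
    · intro Q hQ x hx
      have h5 : Q * (K - s • (1 : X →L[ℂ] X)) = (K - s • (1 : X →L[ℂ] X)) * Q := by
        rw [mul_sub, sub_mul, hcom Q hQ]
        simp
      rw [LinearMap.mem_ker] at hx ⊢
      have h6 := congrArg (fun a : X →L[ℂ] X => a x) h5
      simp only [ContinuousLinearMap.mul_apply] at h6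
      change (K - s • (1 : X →L[ℂ] X)) x = 0 at hx
      change (K - s • (1 : X →L[ℂ] X)) (Q x) = 0
      rw [← h6, hx, map_zero]
  · right
    obtain ⟨V, hV1, hV2, hV3, hV4⟩ := Pool.Agent.W577.HI.G1.main X (K * K) h hs
    refine ⟨V, hV1, hV2, hV3, fun Q hQ x hx => hV4 Q ?_ x hx⟩
    have h1 := hcom Q hQ
    rw [← mul_assoc, h1, mul_assoc, h1, mul_assoc]

end square

section hilbert

variable {H : Type} [NormedAddCommGroup H] [InnerProductSpace ℂ H] [CompleteSpace H]

/-- the compact case -/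
theorem compact_of_one (N T : H →L[ℂ] H) (u v : H) (hN : IsStarNormal N)
    (hT : ∀ f, T f = N f + ⟪v, f⟫_ℂ • u) (c : ℂ) (hs : spectrum ℂ T = {c}) :
    IsCompactOperator (T - c • (1 : H →L[ℂ] H)) := by
  set F : H →L[ℂ] H := (innerSL ℂ v).smulRight u with hF
  have hTF : T = N + F := by
    ext f
    rw [hT]
    simp [hF]
  have hK : IsCompactOperator F := by
    have h0 : IsCompactOperator (ContinuousLinearMap.toSpanSingleton ℂ u : ℂ →L[ℂ] H) :=
      isCompactOperator_of_locallyCompactSpace_rng _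
    exact h0.comp_clm (innerSL ℂ v)
  have h2 := Pool.Agent.W806.HI.main H N F c hN hK (by rw [← hTF]; exact hs)
  have h4 : T - c • (1 : H →L[ℂ] H) = (N - c • (1 : H →L[ℂ] H)) + F := by
    rw [hTF]; abel
  rw [h4]
  exact h2.add hK

/-- the compression to the orthogonal complement of an invariant subspace is the quotient -/
theorem quot (A : H →L[ℂ] H) (L : Submodule ℂ H) [L.HasOrthogonalProjection]
    (hL : ∀ x ∈ L, A x ∈ L)
    (T₂ : Lᗮ →L[ℂ] Lᗮ) (hT₂ : ∀ x y : Lᗮ, ⟪(y : H), (T₂ x : H)⟫_ℂ = ⟪(y : H), A (x : H)⟫_ℂ) (z : H) :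
    Lᗮ.orthogonalProjectionOnto (A z) = T₂ (Lᗮ.orthogonalProjectionOnto z) := by
  refine ext_inner_left ℂ fun w => ?_
  rw [Submodule.inner_orthogonalProjectionOnto_eq_of_mem_left]
  have h1 : z = L.starProjection z + Lᗮ.starProjection z :=
    (L.starProjection_add_starProjection_orthogonal z).symm
  have h2 : ⟪(w : H), A (L.starProjection z)⟫_ℂ = 0 := by
    have h3 : A (L.starProjection z) ∈ L := hL _ (L.starProjection_apply_mem z)
    exact Submodule.inner_left_of_mem_orthogonal h3 w.2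
  have h4 : ⟪(w : H), A z⟫_ℂ = ⟪(w : H), A (Lᗮ.starProjection z)⟫_ℂ := by
    conv_lhs => rw [h1]
    rw [map_add, inner_add_right, h2, zero_add]
  rw [h4, Submodule.coe_inner]
  exact (hT₂ (Lᗮ.orthogonalProjectionOnto z) w).symm

/-- the one-point case of an extension -/
theorem square_compact (A : H →L[ℂ] H) (M : Submodule ℂ H) [CompleteSpace M]
    (hM : ∀ x ∈ M, A x ∈ M) (T₁ : M →L[ℂ] M) (hT₁ : ∀ x : M, ((T₁ x : M) : H) = A x)
    (T₂ : Mᗮ →L[ℂ] Mᗮ) (hT₂ : ∀ x y : Mᗮ, ⟪(y : H), (T₂ x : H)⟫_ℂ = ⟪(y : H), A (x : H)⟫_ℂ) (c : ℂ)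
    (h1 : IsCompactOperator (T₁ - c • (1 : M →L[ℂ] M)))
    (h2 : IsCompactOperator (T₂ - c • (1 : Mᗮ →L[ℂ] Mᗮ))) :
    IsCompactOperator ((A - c • (1 : H →L[ℂ] H)) * (A - c • (1 : H →L[ℂ] H))) := by
  set K := A - c • (1 : H →L[ℂ] H) with hK
  have c1 : IsCompactOperator (K.comp M.subtypeL) := by
    have hKM : K.comp M.subtypeL = M.subtypeL.comp (T₁ - c • (1 : M →L[ℂ] M)) := by
      ext x
      simp [hK, hT₁]
    rw [hKM]
    exact h1.clm_comp M.subtypeL
  have c2 : IsCompactOperator (Mᗮ.subtypeL.comp (Mᗮ.orthogonalProjectionOnto.comp K)) := by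
    have hKM : Mᗮ.orthogonalProjectionOnto.comp K =
        (T₂ - c • (1 : Mᗮ →L[ℂ] Mᗮ)).comp Mᗮ.orthogonalProjectionOnto := by
      ext1 z
      simp only [ContinuousLinearMap.comp_apply, hK, ContinuousLinearMap.sub_apply, map_sub,
        ContinuousLinearMap.smul_apply, ContinuousLinearMap.one_apply, map_smul]
      rw [quot A M hM T₂ hT₂ z]
    rw [hKM]
    have h3 : IsCompactOperator ((T₂ - c • (1 : Mᗮ →L[ℂ] Mᗮ)).comp Mᗮ.orthogonalProjectionOnto) :=
      h2.comp_clm Mᗮ.orthogonalProjectionOnto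
    exact h3.clm_comp Mᗮ.subtypeL
  have e : K * K = (K.comp M.subtypeL).comp (M.orthogonalProjectionOnto.comp K) +
      K.comp (Mᗮ.subtypeL.comp (Mᗮ.orthogonalProjectionOnto.comp K)) := by
    ext z
    have h1 := M.starProjection_add_starProjection_orthogonal (K z)
    simp only [ContinuousLinearMap.mul_apply, ContinuousLinearMap.add_apply,
      ContinuousLinearMap.comp_apply, Submodule.subtypeL_apply]
    rw [← map_add]
    congr 1
    exact h1.symm
  rw [e]
  have d1 : IsCompactOperator ((K.comp M.subtypeL).comp (M.orthogonalProjectionOnto.comp K)) :=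
    c1.comp_clm (M.orthogonalProjectionOnto.comp K)
  have d2 : IsCompactOperator (K.comp (Mᗮ.subtypeL.comp (Mᗮ.orthogonalProjectionOnto.comp K))) :=
    c2.clm_comp K
  exact d1.add d2

end hilbert

end Pool.Agent.Q142.HS
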