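import Pool.Agent.Q142.HS.Rep
import Pool.Agent.TH550.LP.Seqs

/-! Vectors and functionals with prescribed exponential growth, and commuting perturbations. -/

set_option autoImplicit false

open Filter Topology NormedSpace
open scoped InnerProductSpace

namespace Pool.Agent.Q142.HS

section general

variable {X : Type*} [NormedAddCommGroup X] [NormedSpace ℂ X]

/-- growth data -/
def GE (S : X →L[ℂ] X) (a b : ℝ) : Prop :=
  ∃ (k : ℕ → ℕ) (v : ℕ → X) (f : X) (φ : ℕ → X →L[ℂ] ℂ) (ψ : X →L[ℂ] ℂ) (C : ℝ),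
    Tendsto k atTop atTop ∧ f ≠ 0 ∧ ψ ≠ 0 ∧ Tendsto v atTop (𝓝 f) ∧
    (∀ x, Tendsto (fun i => φ i x) atTop (𝓝 (ψ x))) ∧ (∀ i, ‖φ i‖ ≤ C) ∧
    (∀ i, ‖exp ((k i : ℂ) • S) (v i)‖ ≤ C * Real.exp (a * k i)) ∧
    ∀ i, ‖(φ i).comp (exp ((k i : ℂ) • (-S)))‖ ≤ C * Real.exp (-b * k i)

theorem pow_bound [CompleteSpace X] [Nontrivial X] (A : X →L[ℂ] X) {ρ : ℝ} (hρ : 0 < ρ)
    (h : spectralRadius ℂ A < ENNReal.ofReal ρ) :
    ∃ M : ℝ, 0 ≤ M ∧ ∀ n : ℕ, ‖A ^ n‖ ≤ M * ρ ^ n := by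
  have h1 := spectrum.pow_nnnorm_pow_one_div_tendsto_nhds_spectralRadius A
  have h2 := (h1.eventually (gt_mem_nhds h)).and (eventually_ge_atTop 1)
  obtain ⟨N, hN⟩ := eventually_atTop.1 h2
  refine ⟨1 + ∑ n ∈ Finset.range N, ‖A ^ n‖ / ρ ^ n, by positivity, fun n => ?_⟩
  have hs : ∀ m ∈ Finset.range N, 0 ≤ ‖A ^ m‖ / ρ ^ m := fun m _ => by positivity
  by_cases hn : n < N
  · have h3 := Finset.single_le_sum hs (Finset.mem_range.2 hn)
    have h4 : ‖A ^ n‖ = ‖A ^ n‖ / ρ ^ n * ρ ^ n := by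
      field_simp
    rw [h4]
    refine mul_le_mul_of_nonneg_right ?_ (by positivity)
    linarith
  · obtain ⟨h3, h4⟩ := hN n (by omega)
    have h5 : ‖A ^ n‖ ≤ ρ ^ n := by
      have h6 : ((‖A ^ n‖₊ : ENNReal) ^ (1 / (n : ℝ))) ^ (n : ℝ) ≤ (ENNReal.ofReal ρ) ^ (n : ℝ) :=
        ENNReal.rpow_le_rpow h3.le (by positivity)
      rw [← ENNReal.rpow_mul, one_div, inv_mul_cancel₀ (by positivity), ENNReal.rpow_one,
        ENNReal.rpow_natCast, ← ENNReal.ofReal_pow hρ.le] at h6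
      have h7 := ENNReal.toReal_mono ENNReal.ofReal_ne_top h6
      rwa [ENNReal.coe_toReal, coe_nnnorm, ENNReal.toReal_ofReal (by positivity)] at h7
    refine h5.trans ?_
    have := Finset.sum_nonneg hs
    nlinarith [pow_pos hρ n]

theorem exp_bound [CompleteSpace X] (A : X →L[ℂ] X) {ρ M : ℝ} (hρ : 0 ≤ ρ) (hM : 0 ≤ M)
    (h : ∀ n : ℕ, ‖A ^ n‖ ≤ M * ρ ^ n) (c : ℂ) : ‖exp (c • A)‖ ≤ M * Real.exp (‖c‖ * ρ) := by
  have h1 : exp (c • A) = ∑' n : ℕ, ((n.factorial : ℂ)⁻¹) • (c • A) ^ n :=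
    congrFun (exp_eq_tsum ℂ) (c • A)
  have h2 : HasSum (fun n : ℕ => M * ((‖c‖ * ρ) ^ n / n.factorial)) (M * Real.exp (‖c‖ * ρ)) := by
    have h3 := NormedSpace.expSeries_div_hasSum_exp (𝔸 := ℝ) (‖c‖ * ρ)
    rw [← Real.exp_eq_exp_ℝ] at h3
    exact h3.mul_left M
  rw [h1]
  refine tsum_of_norm_bounded h2 (fun n => ?_)
  rw [norm_smul, smul_pow, norm_smul, norm_inv, Complex.norm_natCast, norm_pow]
  calc ((n.factorial : ℝ))⁻¹ * (‖c‖ ^ n * ‖A ^ n‖)
      ≤ ((n.factorial : ℝ))⁻¹ * (‖c‖ ^ n * (M * ρ ^ n)) := by gcongr; exact h n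
    _ = _ := by rw [mul_pow]; ring

/-- the perturbation theorem -/
theorem grow_hyper [CompleteSpace X] (S A : X →L[ℂ] X) (hSA : A * S = S * A) (z : ℂ) (a b : ℝ)
    (h : GE (z • S) a b) (ρ : ℝ) (hρ : 0 < ρ) (hA : spectralRadius ℂ A < ENNReal.ofReal ρ)
    (hab : 2 * ‖z‖ * ρ < b - a) : HasHyperinvariant (S + A) := by
  obtain ⟨k, v, f, φ, ψ, C, hk, hf, hψ, hv, hφ, hφC, h1, h2⟩ := h
  haveI : Nontrivial X := ⟨f, 0, hf⟩
  obtain ⟨M, hM, hMA⟩ := pow_bound A hρ hA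
  have hC : 0 ≤ C := (norm_nonneg _).trans (hφC 0)
  let _ : NormedAlgebra ℚ (X →L[ℂ] X) := .restrictScalars ℚ ℂ (X →L[ℂ] X)
  refine hyper_of_pair (S + A) f ψ hf hψ (fun Q hQ => ?_)
  have hcSA : Commute S A := hSA.symm
  have hcQ : Commute Q (S + A) := hQ
  -- the values tend to `ψ (Q f)`
  have lim1 : Tendsto (fun i => φ i (Q (v i))) atTop (𝓝 (ψ (Q f))) := by
    have e1 : ∀ i, φ i (Q (v i)) = φ i (Q f) + φ i (Q (v i - f)) := fun i => by
      rw [← map_add, ← map_add]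
      congr 2
      abel
    simp_rw [e1]
    have e2 : Tendsto (fun i => φ i (Q (v i - f))) atTop (𝓝 0) := by
      refine squeeze_zero_norm (a := fun i => C * (‖Q‖ * ‖v i - f‖)) (fun i => ?_) ?_
      · refine ((φ i).le_opNorm _).trans (mul_le_mul (hφC i) (Q.le_opNorm _) (norm_nonneg _) hC)
      · have e3 := ((hv.sub_const f).norm.const_mul ‖Q‖).const_mul C
        simpa using e3
    have := (hφ (Q f)).add e2
    rwa [add_zero] at this
  -- the decay
  have dec : ∀ i, ‖φ i (Q (v i))‖ ≤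
      (C * C * ‖Q‖ * M * M) * Real.exp ((a - b + 2 * ‖z‖ * ρ) * k i) := by
    intro i
    have hc : ∀ w : ℂ, exp (w • (S + A)) = exp (w • A) * exp (w • S) := by
      intro w
      rw [smul_add, add_comm]
      exact exp_add_of_commute (((hcSA.symm).smul_left w).smul_right w)
    have hc' : ∀ w : ℂ, exp (w • (S + A)) = exp (w • S) * exp (w • A) := by
      intro w
      rw [smul_add]
      exact exp_add_of_commute (((hcSA).smul_left w).smul_right w)
    set w : ℂ := (k i : ℂ) * z with hw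
    have hwn : ‖w‖ = k i * ‖z‖ := by rw [hw, norm_mul, Complex.norm_natCast]
    have e1 : exp ((-w) • (S + A)) * exp (w • (S + A)) = 1 := by
      have e0 : Commute (-(w • (S + A))) (w • (S + A)) := (Commute.refl _).neg_left
      rw [neg_smul, ← exp_add_of_commute e0, neg_add_cancel, exp_zero]
    have e2 : Q = exp ((-w) • (S + A)) * (Q * exp (w • (S + A))) := by
      have e3 : Commute Q (exp (w • (S + A))) := (hcQ.smul_right w).exp_right
      rw [e3.eq, ← mul_assoc, e1, one_mul]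
    have e4 : φ i (Q (v i)) = ((φ i).comp (exp ((k i : ℂ) • (-(z • S)))))
        ((exp ((-w) • A) * Q * exp (w • A)) (exp ((k i : ℂ) • (z • S)) (v i))) := by
      have e5 : (k i : ℂ) • (-(z • S)) = (-w) • S := by
        rw [smul_neg, smul_smul, neg_smul]
      have e6 : (k i : ℂ) • (z • S) = w • S := by rw [smul_smul]
      rw [e5, e6]
      have e7 : Q = exp ((-w) • S) * ((exp ((-w) • A) * Q * exp (w • A)) * exp (w • S)) := by
        calc Q = exp ((-w) • (S + A)) * (Q * exp (w • (S + A))) := e2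
          _ = (exp ((-w) • S) * exp ((-w) • A)) * (Q * (exp (w • A) * exp (w • S))) := by
              rw [hc' (-w), hc w]
          _ = _ := by simp only [mul_assoc]
      conv_lhs => rw [e7]
      rfl
    rw [e4]
    have e8 : ‖exp ((-w) • A) * Q * exp (w • A)‖ ≤
        (M * Real.exp (‖w‖ * ρ)) * ‖Q‖ * (M * Real.exp (‖w‖ * ρ)) := by
      refine (norm_mul_le _ _).trans (mul_le_mul ((norm_mul_le _ _).trans
        (mul_le_mul_of_nonneg_right ?_ (norm_nonneg _))) (exp_bound A hρ.le hM hMA w)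
        (norm_nonneg _) (by positivity))
      have := exp_bound A hρ.le hM hMA (-w)
      rwa [norm_neg] at this
    refine (ContinuousLinearMap.le_opNorm _ _).trans ?_
    calc _ ≤ (C * Real.exp (-b * k i)) * (((M * Real.exp (‖w‖ * ρ)) * ‖Q‖ *
          (M * Real.exp (‖w‖ * ρ))) * (C * Real.exp (a * k i))) := by
          refine mul_le_mul (h2 i) ((ContinuousLinearMap.le_opNorm _ _).trans
            (mul_le_mul e8 (h1 i) (norm_nonneg _) (by positivity))) (norm_nonneg _) (by positivity)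
      _ = (C * C * ‖Q‖ * M * M) * (Real.exp (-b * k i) * Real.exp (‖w‖ * ρ) *
          Real.exp (‖w‖ * ρ) * Real.exp (a * k i)) := by ring
      _ = _ := by
          rw [← Real.exp_add, ← Real.exp_add, ← Real.exp_add, hwn]
          congr 2
          ring
  have lim2 : Tendsto (fun i => φ i (Q (v i))) atTop (𝓝 0) := by
    refine squeeze_zero_norm dec ?_
    have e1 : Tendsto (fun i => (a - b + 2 * ‖z‖ * ρ) * (k i : ℝ)) atTop atBot := by
      refine Tendsto.const_mul_atTop_of_neg (by linarith) ?_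
      exact tendsto_natCast_atTop_atTop.comp hk
    have e2 := (Real.tendsto_exp_atBot.comp e1).const_mul (C * C * ‖Q‖ * M * M)
    rwa [mul_zero] at e2
  exact tendsto_nhds_unique lim1 lim2

end general

section rep

open InnerProductSpace

variable {H : Type} [NormedAddCommGroup H] [InnerProductSpace ℂ H] [CompleteSpace H]
variable {X : Type} [NormedAddCommGroup X] [NormedSpace ℂ X] [CompleteSpace X]

theorem GE_of_rep (T : H →L[ℂ] H) (z : ℂ) (h : Pool.Agent.TH550.LP.GData (z • T)) :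
    ∃ a b : ℝ, a < b ∧ ∀ (X : Type) [NormedAddCommGroup X] [NormedSpace ℂ X] [CompleteSpace X]
      (π : (H →L[ℂ] H) →ₐ[ℂ] (X →L[ℂ] X)), Continuous π → (∃ x y : H, π (rankOne ℂ x y) ≠ 0) →
      GE (z • π T) a b := by
  obtain ⟨k, v, g, f, h, a, b, C, hk, hab, hf, hh, hv, hg, hev, heg⟩ := h
  refine ⟨a, b, hab, ?_⟩
  intro X _ _ _ π hc hπ
  let PI : (H →L[ℂ] H) →L[ℂ] (X →L[ℂ] X) := ⟨π.toLinearMap, hc⟩
  have hPI : ∀ a, PI a = π a := fun a => rfl
  have hexp : ∀ B : H →L[ℂ] H, π (exp B) = exp (π B) := by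
    intro B
    let _ : NormedAlgebra ℚ (H →L[ℂ] H) := .restrictScalars ℚ ℂ (H →L[ℂ] H)
    let _ : NormedAlgebra ℚ (X →L[ℂ] X) := .restrictScalars ℚ ℂ (X →L[ℂ] X)
    exact map_exp π hc B
  obtain ⟨ξ, hξ⟩ := exists_vec _ (rep_rankOne π hπ hf hf)
  obtain ⟨η, hη⟩ := exists_vec _ (rep_rankOne π hπ hh hh)
  obtain ⟨ζ, -, hζ⟩ := exists_dual_vector ℂ _ (norm_ne_zero_iff.2 hη)
  have hC : 0 ≤ C := by
    have h1 := (norm_nonneg _).trans (hev 0)
    by_contra hcon
    push Not at hcon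
    have := mul_neg_of_neg_of_pos hcon (Real.exp_pos (a * k 0))
    linarith
  -- convergence of the rank one operators
  have cv1 : Tendsto (fun i => (rankOne ℂ (v i) f : H →L[ℂ] H)) atTop (𝓝 (rankOne ℂ f f)) :=
    ((rankOne ℂ : H →L[ℂ] H →L⋆[ℂ] H →L[ℂ] H).flip f).continuous.tendsto f |>.comp hv
  have cv2 : Tendsto (fun i => (rankOne ℂ h (g i) : H →L[ℂ] H)) atTop (𝓝 (rankOne ℂ h h)) :=
    ((rankOne ℂ : H →L[ℂ] H →L⋆[ℂ] H →L[ℂ] H) h).continuous.tendsto h |>.comp hg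
  obtain ⟨K, hK⟩ : ∃ K : ℝ, ∀ i, ‖(rankOne ℂ h (g i) : H →L[ℂ] H)‖ ≤ K := by
    obtain ⟨K, hK⟩ := (Metric.isBounded_range_of_tendsto _ cv2).exists_norm_le
    exact ⟨K, fun i => hK _ ⟨i, rfl⟩⟩
  have hK0 : 0 ≤ K := (norm_nonneg _).trans (hK 0)
  set C' : ℝ := ‖PI‖ * C * ‖f‖ * ‖ξ‖ + ‖ζ‖ * ‖PI‖ * ‖h‖ * C + ‖ζ‖ * ‖PI‖ * K with hC'
  have p1 : 0 ≤ ‖PI‖ * C * ‖f‖ * ‖ξ‖ := by positivity
  have p2 : 0 ≤ ‖ζ‖ * ‖PI‖ * ‖h‖ * C := by positivity
  have p3 : 0 ≤ ‖ζ‖ * ‖PI‖ * K := by positivity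
  refine ⟨k, fun i => π (rankOne ℂ (v i) f) ξ, π (rankOne ℂ f f) ξ,
    fun i => ζ.comp (π (rankOne ℂ h (g i))), ζ.comp (π (rankOne ℂ h h)), C',
    hk.tendsto_atTop, hξ, ?_, ?_, ?_, ?_, ?_, ?_⟩
  · intro h0
    have := congrArg (fun a : X →L[ℂ] ℂ => a η) h0
    simp only [ContinuousLinearMap.comp_apply, ContinuousLinearMap.zero_apply] at this
    rw [hζ] at this
    simp at this
    exact hη this
  · have c1 : Tendsto (fun i => PI (rankOne ℂ (v i) f)) atTop (𝓝 (PI (rankOne ℂ f f))) :=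
      (PI.continuous.tendsto _).comp cv1
    exact ((ContinuousLinearMap.apply ℂ X ξ).continuous.tendsto _).comp c1
  · intro x
    have c1 : Tendsto (fun i => PI (rankOne ℂ h (g i))) atTop (𝓝 (PI (rankOne ℂ h h))) :=
      (PI.continuous.tendsto _).comp cv2
    exact (ζ.continuous.tendsto _).comp (((ContinuousLinearMap.apply ℂ X x).continuous.tendsto _).comp c1)
  · intro i
    calc ‖ζ.comp (π (rankOne ℂ h (g i)))‖ ≤ ‖ζ‖ * ‖PI (rankOne ℂ h (g i))‖ :=
          ContinuousLinearMap.opNorm_comp_le _ _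
      _ ≤ ‖ζ‖ * (‖PI‖ * K) := by
          gcongr
          exact (PI.le_opNorm _).trans (mul_le_mul_of_nonneg_left (hK i) (norm_nonneg _))
      _ ≤ C' := by rw [hC']; linarith
  · intro i
    have e1 : exp ((k i : ℂ) • (z • π T)) (π (rankOne ℂ (v i) f) ξ) =
        (PI (rankOne ℂ (exp ((k i : ℂ) • (z • T)) (v i)) f)) ξ := by
      rw [hPI]
      have e2 : (rankOne ℂ (exp ((k i : ℂ) • (z • T)) (v i)) f : H →L[ℂ] H) =
          exp ((k i : ℂ) • (z • T)) * rankOne ℂ (v i) f := by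
        ext x
        simp [rankOne_apply]
      rw [e2, map_mul, hexp, map_smul, map_smul]
      rfl
    rw [e1]
    calc _ ≤ ‖PI (rankOne ℂ (exp ((k i : ℂ) • (z • T)) (v i)) f)‖ * ‖ξ‖ :=
          ContinuousLinearMap.le_opNorm _ _
      _ ≤ (‖PI‖ * ((C * Real.exp (a * k i)) * ‖f‖)) * ‖ξ‖ := by
          gcongr
          refine (PI.le_opNorm _).trans (mul_le_mul_of_nonneg_left ?_ (norm_nonneg _))
          rw [norm_rankOne]
          exact mul_le_mul_of_nonneg_right (hev i) (norm_nonneg _)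
      _ = (‖PI‖ * C * ‖f‖ * ‖ξ‖) * Real.exp (a * k i) := by ring
      _ ≤ C' * Real.exp (a * k i) := by
          refine mul_le_mul_of_nonneg_right ?_ (Real.exp_pos _).le
          rw [hC']; linarith
  · intro i
    have e1 : (ζ.comp (π (rankOne ℂ h (g i)))).comp (exp ((k i : ℂ) • (-(z • π T)))) =
        ζ.comp (PI (rankOne ℂ h (exp ((k i : ℂ) • (-star (z • T))) (g i)))) := by
      rw [hPI]
      have e2 : (rankOne ℂ h (exp ((k i : ℂ) • (-star (z • T))) (g i)) : H →L[ℂ] H) =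
          rankOne ℂ h (g i) * exp ((k i : ℂ) • (-(z • T))) := by
        let _ : NormedAlgebra ℚ (H →L[ℂ] H) := .restrictScalars ℚ ℂ (H →L[ℂ] H)
        have e3 : exp ((k i : ℂ) • (-star (z • T))) = star (exp ((k i : ℂ) • (-(z • T)))) := by
          have e4 : star ((k i : ℂ) • (-(z • T))) = (k i : ℂ) • (-star (z • T)) := by
            rw [star_smul ((k i : ℂ)) (-(z • T)), star_neg, Complex.star_def, Complex.conj_natCast]
          rw [star_exp, e4]
        rw [e3, ContinuousLinearMap.star_eq_adjoint]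
        ext x
        simp [rankOne_apply, ContinuousLinearMap.adjoint_inner_left]
      rw [e2, map_mul, hexp, map_smul, map_neg, map_smul]
      rfl
    rw [e1]
    calc _ ≤ ‖ζ‖ * ‖PI (rankOne ℂ h (exp ((k i : ℂ) • (-star (z • T))) (g i)))‖ :=
          ContinuousLinearMap.opNorm_comp_le _ _
      _ ≤ ‖ζ‖ * (‖PI‖ * (‖h‖ * (C * Real.exp (-b * k i)))) := by
          gcongr
          refine (PI.le_opNorm _).trans (mul_le_mul_of_nonneg_left ?_ (norm_nonneg _))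
          rw [norm_rankOne]
          exact mul_le_mul_of_nonneg_left (heg i) (norm_nonneg _)
      _ = (‖ζ‖ * ‖PI‖ * ‖h‖ * C) * Real.exp (-b * k i) := by ring
      _ ≤ C' * Real.exp (-b * k i) := by
          refine mul_le_mul_of_nonneg_right ?_ (Real.exp_pos _).le
          rw [hC']; linarith

end rep

end Pool.Agent.Q142.HS
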