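import Pool.Agent.Q142.HS.Grow
import Pool.Agent.TH550.LV.Val

/-! Growth data for weighted translations on function spaces (adapted from `Pool.Agent.TH550.LV.Asm`
and `Pool.Agent.TH550.LV.Fin` of the starting files). -/

set_option autoImplicit false
set_option linter.unusedSectionVars false
open scoped ComplexConjugate InnerProductSpace Topology ENNReal
open Filter MeasureTheory NormedSpace

namespace Pool.Agent.Q142.HS
open Pool.Agent.TH550.LV Pool.Agent.TH550.LP

section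
variable {X : Type} [MeasurableSpace X] {μ : Measure X}
  {F : Type} [NormedAddCommGroup F] [InnerProductSpace ℂ F] [CompleteSpace F]
  [IsProbabilityMeasure μ]

/-- the main step -/
theorem ge_aux {S : X ≃ᵐ X} (hS : MeasurePreserving S μ μ) {Φ : X → F →L[ℂ] F}
    (hΦ : StronglyMeasurable Φ) {R : ℝ}
    (hR : ∀ x, ‖Φ x‖ ≤ R) {T2 : Lp F 2 μ →L[ℂ] Lp F 2 μ} (hT2 : Act 2 Φ S T2) (hG : GData T2)
    {E : Type} [NormedAddCommGroup E] [NormedSpace ℂ E] [CompleteSpace E]
    {j : E →L[ℂ] Lp F 1 μ} {i : Lp F ∞ μ →L[ℂ] E} (hE : FSp j i) {T : E →L[ℂ] E}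
    (hT : ∀ f : E, (j (T f) : X → F) =ᵐ[μ] fun x => Φ x ((j f : X → F) (S x))) :
    ∃ a b : ℝ, a < b ∧ GE T a b := by
  have hR0 : 0 ≤ R := by
    obtain ⟨x⟩ := prob_nonempty μ
    exact (norm_nonneg _).trans (hR x)
  obtain ⟨k, v, g, f, h, a, b, C, hk, hab, hf, hh, hv, hg, hev, heg⟩ := hG
  set η : ℝ := (b - a) / 4 with hη
  have hη0 : 0 < η := by rw [hη]; linarith
  obtain ⟨σ1, ψ1, K1, hσ1, hψ1m, hψ101, hK1, hnz1, hlim1, hbd1, hex1⟩ :=
    reg S hS hT2 k hk v f hf hv a C hev η hη0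
  have hadj : Act 2 (fun x => (-1 : ℂ) • star (Φ (S.symm x))) S.symm (-star T2) := by
    have := (adj_act hS hΦ hR hT2).smul (-1)
    rwa [neg_one_smul] at this
  obtain ⟨σ2, ψ2, K2, hσ2, hψ2m, hψ201, hK2, hnz2, hlim2, hbd2, hex2⟩ :=
    reg S.symm (hS.symm S) hadj (fun i => k (σ1 i)) (hk.comp hσ1) (fun i => g (σ1 i)) h hh
      (hg.comp hσ1.tendsto_atTop) (-b) C (fun i => heg (σ1 i)) η hη0
  set kk : ℕ → ℕ := fun i => k (σ1 (σ2 i)) with hkk
  have hkkm : StrictMono kk := hk.comp (hσ1.comp hσ2)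
  -- the bounded functions
  have mem1 : ∀ i, MemLp (fun x => (ψ1 x : ℂ) • (v (σ1 (σ2 i)) : X → F) x) ∞ μ := fun i => by
    refine memLp_top_of_bound ((Complex.measurable_ofReal.comp hψ1m).aestronglyMeasurable.smul
      (Lp.memLp _).1) K1 ?_
    filter_upwards [hbd1] with x hx
    exact hx (σ2 i)
  have mem2 : ∀ i, MemLp (fun x => (ψ2 x : ℂ) • (g (σ1 (σ2 i)) : X → F) x) ∞ μ := fun i => by
    refine memLp_top_of_bound ((Complex.measurable_ofReal.comp hψ2m).aestronglyMeasurable.smul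
      (Lp.memLp _).1) K2 ?_
    filter_upwards [hbd2] with x hx
    exact hx i
  have hfb : ∀ᵐ x ∂μ, ‖(ψ1 x : ℂ) • (f : X → F) x‖ ≤ K1 := by
    filter_upwards [hlim1, hbd1] with x h1 h2
    exact le_of_tendsto (h1.const_smul (ψ1 x : ℂ)).norm (Eventually.of_forall h2)
  have hhb : ∀ᵐ x ∂μ, ‖(ψ2 x : ℂ) • (h : X → F) x‖ ≤ K2 := by
    filter_upwards [hlim2, hbd2] with x h1 h2
    exact le_of_tendsto (h1.const_smul (ψ2 x : ℂ)).norm (Eventually.of_forall h2)
  have memf : MemLp (fun x => (ψ1 x : ℂ) • (f : X → F) x) ∞ μ :=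
    memLp_top_of_bound ((Complex.measurable_ofReal.comp hψ1m).aestronglyMeasurable.smul
      (Lp.memLp _).1) K1 hfb
  have memh : MemLp (fun x => (ψ2 x : ℂ) • (h : X → F) x) ∞ μ :=
    memLp_top_of_bound ((Complex.measurable_ofReal.comp hψ2m).aestronglyMeasurable.smul
      (Lp.memLp _).1) K2 hhb
  set y : ℕ → Lp F ∞ μ := fun i => (mem1 i).toLp _ with hy
  set w : ℕ → Lp F ∞ μ := fun i => (mem2 i).toLp _ with hw
  set F0 : Lp F ∞ μ := memf.toLp _ with hF
  set H0 : Lp F ∞ μ := memh.toLp _ with hH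
  have hFc : (F0 : X → F) =ᵐ[μ] fun x => (ψ1 x : ℂ) • (f : X → F) x := MemLp.coeFn_toLp memf
  have hHc : (H0 : X → F) =ᵐ[μ] fun x => (ψ2 x : ℂ) • (h : X → F) x := MemLp.coeFn_toLp memh
  have hyc : ∀ i, (y i : X → F) =ᵐ[μ] fun x => (ψ1 x : ℂ) • (v (σ1 (σ2 i)) : X → F) x :=
    fun i => MemLp.coeFn_toLp (mem1 i)
  have hwc : ∀ i, (w i : X → F) =ᵐ[μ] fun x => (ψ2 x : ℂ) • (g (σ1 (σ2 i)) : X → F) x :=
    fun i => MemLp.coeFn_toLp (mem2 i)
  have hFne : F0 ≠ 0 := by
    intro h0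
    apply hnz1
    rw [h0] at hFc
    filter_upwards [hFc, Lp.coeFn_zero F ∞ μ] with x e1 e2
    rw [← e1, e2, Pi.zero_apply]
  have hHne : H0 ≠ 0 := by
    intro h0
    apply hnz2
    rw [h0] at hHc
    filter_upwards [hHc, Lp.coeFn_zero F ∞ μ] with x e1 e2
    rw [← e1, e2, Pi.zero_apply]
  -- operators on `L^∞`
  obtain ⟨Ti, hTi, -⟩ := exists_act (μ := μ) ∞ hΦ hR0 hR hS
  obtain ⟨Ui, hUi, -⟩ := exists_act (μ := μ) ∞ (Φ := fun x => (-1 : ℂ) • star (Φ (S.symm x)))
    ((star_meas (S := S) hΦ).const_smul (-1 : ℂ)) hR0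
    (fun x => by rw [norm_smul, norm_neg, norm_one, one_mul, norm_star]; exact hR _)
    (hS.symm S)
  have hinter : ∀ z : Lp F ∞ μ, i (Ti z) = T (i z) := by
    intro z
    rw [← sub_eq_zero]
    refine hE.inj _ ?_
    rw [map_sub, sub_eq_zero]
    apply Lp.ext
    have h1 := hS.quasiMeasurePreserving.ae_eq_comp (hE.incl z)
    filter_upwards [hE.incl (Ti z), hT (i z), hTi z, h1] with x e1 e2 e3 e4
    simp only [Function.comp_apply] at e4
    rw [e1, e2, e3, e4]
  have hinterexp : ∀ (c : ℂ) (z : Lp F ∞ μ), i (exp (c • Ti) z) = exp (c • T) (i z) := by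
    intro c z
    refine exp_int (i : Lp F ∞ μ →+ E) (fun r x => map_smul i (r : ℂ) x) i.continuous _ _
      (fun x => ?_) z
    show i (c • Ti x) = c • T (i x)
    rw [map_smul, hinter]
  -- growth
  have gr1 : ∀ n, ‖exp ((kk n : ℂ) • T) (i (y n))‖ ≤
      ‖i‖ * (K1 * Real.exp ((a + η) * kk n)) := by
    intro n
    rw [← hinterexp]
    refine (i.le_opNorm _).trans (mul_le_mul_of_nonneg_left (norm_le_of_bd (by positivity) ?_)
      (norm_nonneg _))
    have h1 := hex1 (σ2 n) (incl μ F 2 ∞ le_top (y n)) (hyc n)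
    rw [← inc_exp (hT2.smul (kk n : ℂ)) (hTi.smul (kk n : ℂ))] at h1
    exact h1
  have gr2 : ∀ n, ‖exp ((kk n : ℂ) • Ui) (w n)‖ ≤ K2 * Real.exp ((-b + η) * kk n) := by
    intro n
    refine norm_le_of_bd (by positivity) ?_
    have h1 := hex2 n (incl μ F 2 ∞ le_top (w n)) (hwc n)
    rw [← inc_exp (hadj.smul (kk n : ℂ)) (hUi.smul (kk n : ℂ))] at h1
    exact h1
  have hwn : ∀ n, ‖w n‖ ≤ K2 := fun n => norm_le_of_bd hK2 (by
    filter_upwards [hwc n, hbd2] with x e1 e2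
    rw [e1]
    exact e2 n)
  have hyn : ∀ n, ‖y n‖ ≤ K1 := fun n => norm_le_of_bd hK1 (by
    filter_upwards [hyc n, hbd1] with x e1 e2
    rw [e1]
    exact e2 (σ2 n))
  -- limits
  have lim1 : Tendsto (fun n => i (y n)) atTop (𝓝 (i F0)) := by
    refine hE.dom y F0 K1 hyn ?_
    filter_upwards [ae_all_iff.2 hyc, hlim1, hFc] with x e1 e2 e3
    rw [e3]
    simp_rw [e1]
    exact (e2.comp hσ2.tendsto_atTop).const_smul _
  have lim2 : ∀ z : Lp F 1 μ, Tendsto (fun n => pr (w n) z) atTop (𝓝 (pr H0 z)) := by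
    intro z
    refine tendsto_integral_of_dominated_convergence (fun x => K2 * ‖(z : X → F) x‖)
      (fun i => (int_pr (w i) z).1) ((int_y z).norm.const_mul _) (fun i => ?_) ?_
    · filter_upwards [hwc i, hbd2] with x e1 e2
      rw [e1]
      exact (norm_inner_le_norm _ _).trans (mul_le_mul_of_nonneg_right (e2 i) (norm_nonneg _))
    · filter_upwards [ae_all_iff.2 hwc, hlim2, hHc] with x e1 e2 e3
      rw [e3]
      simp_rw [e1]
      exact (e2.const_smul _).inner tendsto_const_nhds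
  -- the functionals
  have hlin : ∀ g : Lp F ∞ μ, ∃ L : E →L[ℂ] ℂ, (∀ x, L x = pr g (j x)) ∧ ‖L‖ ≤ ‖g‖ * ‖j‖ := by
    intro g
    let L0 : E →ₗ[ℂ] ℂ :=
      { toFun := fun x => pr g (j x)
        map_add' := fun x y => by rw [map_add, pr_add_right]
        map_smul' := fun c x => by rw [map_smul, pr_smul_right]; rfl }
    have hb : ∀ x, ‖L0 x‖ ≤ ‖g‖ * ‖j‖ * ‖x‖ := fun x => by
      refine (pr_bound g (j x)).trans ?_
      rw [mul_assoc]
      exact mul_le_mul_of_nonneg_left (j.le_opNorm x) (norm_nonneg _)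
    exact ⟨L0.mkContinuous _ hb, fun x => rfl, L0.mkContinuous_norm_le (by positivity) hb⟩
  choose L hL1 hL2 using hlin
  -- the decay of the functionals
  have e2 : ∀ n (x : E), pr (w n) (j (exp ((kk n : ℂ) • (-T)) x))
      = pr (exp ((kk n : ℂ) • Ui) (w n)) (j x) := by
    intro n x
    refine exp_adj _ _ (fun g x => pr g (j x)) (fun g x y => ?_) (fun g g' x => pr_add_left _ _ _)
      (fun g r x => ?_) (fun g r x => pr_smul_left _ _ _) ‖j‖ (fun g x => ?_) (fun g x => ?_) _ _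
    · rw [map_add, pr_add_right]
    · rw [map_smul, pr_smul_right]
    · calc ‖pr g (j x)‖ ≤ ‖g‖ * ‖j x‖ := pr_bound _ _
        _ ≤ ‖g‖ * (‖j‖ * ‖x‖) := mul_le_mul_of_nonneg_left (j.le_opNorm _) (norm_nonneg _)
        _ = ‖j‖ * (‖g‖ * ‖x‖) := by ring
    · refine pr_act (Φ := fun x => (-(kk n : ℂ)) • Φ x) hS ?_ g _ _ ?_
      · refine (hUi.smul (kk n : ℂ)).congr (Eventually.of_forall fun x => ?_)
        simp only [star_smul, smul_smul, star_neg, Complex.star_def, Complex.conj_natCast]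
        congr 1
        ring
      · have h1 : ((kk n : ℂ) • (-T)) x = (-(kk n : ℂ)) • T x := by
          show (kk n : ℂ) • (-(T x)) = _
          rw [smul_neg, neg_smul]
        rw [h1, map_smul]
        filter_upwards [hT x, Lp.coeFn_smul (-(kk n : ℂ)) (j (T x))] with z e3 e4
        rw [e4, Pi.smul_apply, e3]
        rfl
  have hiF : i F0 ≠ 0 := by
    intro h0
    apply hFne
    rw [Lp.eq_zero_iff_ae_eq_zero]
    have h2 := hE.incl F0
    rw [h0, map_zero] at h2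
    filter_upwards [h2, Lp.coeFn_zero F 1 μ] with x e1 e2
    rw [← e1, e2]
  have hLH : L H0 ≠ 0 := by
    intro h0
    have h2 : pr H0 (j (i H0)) = 0 := by
      rw [← hL1, h0]
      rfl
    have h3 : ∫ x, ‖(H0 : X → F) x‖ ^ 2 ∂μ = 0 := by
      have h4 : ((∫ x, ‖(H0 : X → F) x‖ ^ 2 ∂μ : ℝ) : ℂ) = 0 := by
        rw [← integral_complex_ofReal, ← h2]
        refine integral_congr_ae ?_
        filter_upwards [hE.incl H0] with x e1
        rw [e1, inner_self_eq_norm_sq_to_K]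
        push_cast
        rfl
      exact_mod_cast h4
    have h5 : Integrable (fun x => ‖(H0 : X → F) x‖ ^ 2) μ := by
      refine (integrable_const (‖H0‖ ^ 2)).mono' ((Lp.memLp H0).1.norm.pow 2) ?_
      filter_upwards [norm_infty H0] with x hx
      rw [Real.norm_eq_abs, abs_of_nonneg (sq_nonneg _)]
      gcongr
    rw [integral_eq_zero_iff_of_nonneg (fun x => sq_nonneg _) h5] at h3
    apply hHne
    rw [Lp.eq_zero_iff_ae_eq_zero]
    filter_upwards [h3] with x hx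
    have : ‖(H0 : X → F) x‖ ^ 2 = 0 := hx
    simpa using this
  have q1 : 0 ≤ ‖i‖ * K1 := by positivity
  have q2 : 0 ≤ K2 * ‖j‖ := by positivity
  refine ⟨a + η, b - η, by rw [hη]; linarith, kk, fun n => i (y n), i F0, fun n => L (w n), L H0,
    ‖i‖ * K1 + K2 * ‖j‖, hkkm.tendsto_atTop, hiF, hLH, lim1, ?_, ?_, ?_, ?_⟩
  · intro x
    simp_rw [hL1]
    exact lim2 (j x)
  · intro n
    refine (hL2 (w n)).trans ?_
    have := mul_le_mul_of_nonneg_right (hwn n) (norm_nonneg j)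
    linarith
  · intro n
    refine (gr1 n).trans ?_
    rw [← mul_assoc]
    refine mul_le_mul_of_nonneg_right ?_ (Real.exp_pos _).le
    linarith
  · intro n
    refine ContinuousLinearMap.opNorm_le_bound _ (by positivity) (fun x => ?_)
    show ‖L (w n) (exp ((kk n : ℂ) • (-T)) x)‖ ≤ _
    rw [hL1, e2]
    refine (pr_bound _ _).trans ?_
    calc _ ≤ (K2 * Real.exp ((-b + η) * kk n)) * (‖j‖ * ‖x‖) :=
          mul_le_mul (gr2 n) (j.le_opNorm x) (norm_nonneg _) (by positivity)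
      _ = (K2 * ‖j‖) * Real.exp (-(b - η) * kk n) * ‖x‖ := by
          rw [show (-b + η) * (kk n : ℝ) = -(b - η) * kk n by ring]
          ring
      _ ≤ _ := by
          refine mul_le_mul_of_nonneg_right (mul_le_mul_of_nonneg_right ?_ (Real.exp_pos _).le)
            (norm_nonneg _)
          linarith

end

/-- growth data for all weighted translations with log-integrable nonsingular weights -/
theorem fin_ge (X : Type) [MeasurableSpace X] [MeasurableSpace.CountablyGenerated X]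
    (μ : Measure X) [IsProbabilityMeasure μ]
    (F : Type) [NormedAddCommGroup F] [InnerProductSpace ℂ F] [FiniteDimensional ℂ F] [Nontrivial F]
    (S : X ≃ᵐ X) (hS : MeasurePreserving S μ μ)
    (hap : ∀ n : ℕ, 1 ≤ n → ∃ B : Set X, MeasurableSet B ∧ ¬ ((S^[n]) ⁻¹' B =ᵐ[μ] B))
    (Φ : X → (F →L[ℂ] F)) (R : ℝ) (hΦm : StronglyMeasurable Φ) (hΦR : ∀ x, ‖Φ x‖ ≤ R)
    (hinv : ∀ᵐ x ∂μ, IsUnit (Φ x))
    (hlog' : Integrable (fun x => Real.log ‖Ring.inverse (Φ x)‖) μ) :
    ∃ z : ℂ, (∀ T2 : Lp F 2 μ →L[ℂ] Lp F 2 μ,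
        (∀ f : Lp F 2 μ, (T2 f : X → F) =ᵐ[μ] fun x => Φ x ((f : X → F) (S x))) → GData (z • T2)) ∧
      ∀ (E : Type) [NormedAddCommGroup E] [NormedSpace ℂ E] [CompleteSpace E]
        (j : E →L[ℂ] Lp F 1 μ) (i : Lp F ∞ μ →L[ℂ] E), FSp j i → ∀ T : E →L[ℂ] E,
        (∀ f : E, (j (T f) : X → F) =ᵐ[μ] fun x => Φ x ((j f : X → F) (S x))) →
        ∃ a b : ℝ, a < b ∧ GE (z • T) a b := by
  have : CompleteSpace F := FiniteDimensional.complete ℂ F
  -- the lower bound
  set g0 : X → ℝ := fun x => Real.exp (-Real.log ‖Ring.inverse (Φ x)‖) with hg0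
  have hg0m : AEMeasurable g0 μ := (Real.measurable_exp.comp_aemeasurable hlog'.1.aemeasurable.neg)
  have hgood : ∀ᵐ x ∂μ, IsUnit (Φ x) ∧ g0 x = hg0m.mk g0 x := by
    filter_upwards [hinv, hg0m.ae_eq_mk] with x h1 h2
    exact ⟨h1, h2⟩
  obtain ⟨A, hAsub, hAm, hA0⟩ : ∃ A : Set X, (∀ x ∈ A, IsUnit (Φ x) ∧ g0 x = hg0m.mk g0 x) ∧
      MeasurableSet A ∧ ∀ᵐ x ∂μ, x ∈ A := by
    obtain ⟨N, hN1, hN2, hN3⟩ := exists_measurable_superset_of_null (ae_iff.1 hgood)
    refine ⟨Nᶜ, fun x hx => ?_, hN2.compl, ?_⟩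
    · by_contra hcon
      exact hx (hN1 hcon)
    · rw [ae_iff]
      simpa using hN3
  classical
  set Φ' : X → F →L[ℂ] F := fun x => if x ∈ A then Φ x else 1 with hΦ'
  set g : X → ℝ := fun x => if x ∈ A then hg0m.mk g0 x else 1 with hg
  have hΦ'm : StronglyMeasurable Φ' := StronglyMeasurable.ite hAm hΦm stronglyMeasurable_const
  have hgm : Measurable g := Measurable.ite hAm hg0m.measurable_mk measurable_const
  have hΦ'R : ∀ x, ‖Φ' x‖ ≤ max R 1 := by
    intro x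
    by_cases hx : x ∈ A
    · simp only [hΦ', hx, if_true]
      exact (hΦR x).trans (le_max_left _ _)
    · simp only [hΦ', hx, if_false]
      exact ContinuousLinearMap.norm_id_le.trans (le_max_right _ _)
  have hgpos : ∀ x, 0 < g x := by
    intro x
    by_cases hx : x ∈ A
    · simp only [hg, hx, if_true]
      rw [← (hAsub x hx).2]
      exact Real.exp_pos _
    · simp only [hg, hx, if_false]
      exact one_pos
  have hgΦ : ∀ x w, g x * ‖w‖ ≤ ‖Φ' x w‖ := by
    intro x w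
    by_cases hx : x ∈ A
    · simp only [hg, hΦ', hx, if_true]
      obtain ⟨hu, he⟩ := hAsub x hx
      rw [← he, hg0]
      simp only
      set B := Ring.inverse (Φ x) with hB
      have h1 : B * Φ x = 1 := Ring.inverse_mul_cancel _ hu
      have hB0 : 0 < ‖B‖ := by
        rw [norm_pos_iff]
        intro h0
        rw [h0, zero_mul] at h1
        exact zero_ne_one h1
      rw [Real.exp_neg, Real.exp_log hB0, inv_mul_le_iff₀ hB0]
      calc ‖w‖ = ‖B (Φ x w)‖ := by
            have h2 : B (Φ x w) = (B * Φ x) w := rfl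
            rw [h2, h1]
            rfl
        _ ≤ ‖B‖ * ‖Φ x w‖ := B.le_opNorm _
    · simp only [hg, hΦ', hx, if_false]
      rw [one_mul]
      exact le_rfl
  have hgi : Integrable (fun x => Real.log (g x)) μ := by
    refine hlog'.neg.congr ?_
    filter_upwards [hA0] with x hx
    simp only [hg, hx, if_true, Pi.neg_apply]
    rw [← (hAsub x hx).2, hg0]
    simp only
    rw [Real.log_exp]
  have hR0 : (0:ℝ) ≤ max R 1 := zero_le_one.trans (le_max_right _ _)
  obtain ⟨T2, hT2, -⟩ := exists_act (μ := μ) 2 hΦ'm hR0 hΦ'R hS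
  obtain ⟨z, hz⟩ := fin_gdata X μ F S hS hap Φ' (max R 1) hΦ'm hΦ'R g hgm hgpos hgΦ hgi T2 hT2
  refine ⟨z, fun T2' hT2' => ?_, ?_⟩
  · have e : T2' = T2 := by
      ext1 f
      apply Lp.ext
      filter_upwards [hT2' f, hT2 f, hA0] with x e1 e2 hx
      rw [e1, e2]
      simp only [hΦ', hx, if_true]
    rw [e]
    exact hz
  · intro E _ _ _ j i hE T hT
    refine ge_aux hS (Φ := fun x => z • Φ' x) (hΦ'm.const_smul z) (R := ‖z‖ * max R 1) (fun x => by
      rw [norm_smul]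
      exact mul_le_mul_of_nonneg_left (hΦ'R x) (norm_nonneg _)) (hT2.smul z) hz hE (T := z • T)
      (fun f => ?_)
    have h1 : (z • T) f = z • T f := rfl
    rw [h1, map_smul]
    filter_upwards [hT f, Lp.coeFn_smul z (j (T f)), hA0] with x e1 e2 hx
    rw [e2, Pi.smul_apply, e1]
    simp only [hΦ', hx, if_true]
    rfl

end Pool.Agent.Q142.HS
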